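import Mathlib

/-!
Barrier lemmas for finite families of differentiable functions of a real variable.
-/

open Filter Topology Set

namespace Pool.Agent.Lib.MP_4fbe7c_an

/-- Barrier lemma for a finite family. -/
theorem fence {ι : Type*} [Finite ι] {g g' : ι → ℝ → ℝ} {K K' : ℝ → ℝ} {t₀ : ℝ}
    (hd : ∀ t ≥ t₀, ∀ j, HasDerivAt (g j) (g' j t) t)
    (hK : ∀ t ≥ t₀, HasDerivAt K (K' t) t)
    (h0 : ∀ j, g j t₀ < K t₀)
    (h : ∀ t ≥ t₀, (∀ i, g i t ≤ K t) → ∀ j, g j t = K t → g' j t < K' t) :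
    ∀ t ≥ t₀, ∀ j, g j t < K t := by
  by_contra hcon
  push Not at hcon
  obtain ⟨t₁, ht₁, j₁, hj₁⟩ := hcon
  have hgc : ∀ j, ContinuousOn (g j) (Ici t₀) := fun j t ht =>
    (hd t ht j).continuousAt.continuousWithinAt
  have hKc : ContinuousOn K (Ici t₀) := fun t ht => (hK t ht).continuousAt.continuousWithinAt
  set S : Set ℝ := ⋃ j, {t ∈ Ici t₀ | K t ≤ g j t} with hS
  have hSc : IsClosed S :=
    isClosed_iUnion_of_finite fun j => isClosed_Ici.isClosed_le hKc (hgc j)
  have hSne : S.Nonempty := ⟨t₁, by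
    rw [hS, mem_iUnion]; exact ⟨j₁, ht₁, hj₁⟩⟩
  have hSb : BddBelow S := ⟨t₀, by
    intro t ht
    rw [hS, mem_iUnion] at ht
    obtain ⟨j, ht, -⟩ := ht
    exact ht⟩
  set τ := sInf S with hτ
  have hτS : τ ∈ S := hSc.csInf_mem hSne hSb
  have hτS' := hτS
  rw [hS, mem_iUnion] at hτS'
  obtain ⟨j, hτ0, hj⟩ := hτS'
  have hτ0' : t₀ < τ := by
    rcases eq_or_lt_of_le (show t₀ ≤ τ from hτ0) with h1 | h1
    · have h2 := h0 j
      rw [h1] at h2
      exact absurd hj (not_le.mpr h2)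
    · exact h1
  have hbelow : ∀ t, t₀ ≤ t → t < τ → ∀ i, g i t < K t := by
    intro t h1 h2 i
    by_contra h3
    push Not at h3
    have : t ∈ S := by rw [hS, mem_iUnion]; exact ⟨i, h1, h3⟩
    exact absurd (csInf_le hSb this) (not_le.mpr h2)
  have hev : ∀ᶠ t in 𝓝[<] τ, t₀ < t := by
    have : Ioo t₀ τ ∈ 𝓝[<] τ := Ioo_mem_nhdsLT hτ0'
    filter_upwards [this] with t ht using ht.1
  have hle : ∀ i, g i τ ≤ K τ := by
    intro i
    have h1 : Tendsto (g i) (𝓝[<] τ) (𝓝 (g i τ)) :=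
      ((hd τ hτ0 i).continuousAt.tendsto).mono_left nhdsWithin_le_nhds
    have h2 : Tendsto K (𝓝[<] τ) (𝓝 (K τ)) :=
      ((hK τ hτ0).continuousAt.tendsto).mono_left nhdsWithin_le_nhds
    refine le_of_tendsto_of_tendsto h1 h2 ?_
    filter_upwards [hev, self_mem_nhdsWithin] with t ht ht' using (hbelow t ht.le ht' i).le
  have heq : g j τ = K τ := le_antisymm (hle j) hj
  have hlt := h τ hτ0 hle j heq
  have hder : HasDerivAt (fun t => g j t - K t) (g' j τ - K' τ) τ := (hd τ hτ0 j).sub (hK τ hτ0)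
  have hslope := (hasDerivAt_iff_tendsto_slope.mp hder)
  have hneg : ∀ᶠ t in 𝓝[≠] τ, slope (fun t => g j t - K t) τ t < 0 :=
    hslope.eventually (gt_mem_nhds (by linarith : g' j τ - K' τ < 0))
  have hneg' : ∀ᶠ t in 𝓝[<] τ, slope (fun t => g j t - K t) τ t < 0 :=
    hneg.filter_mono (nhdsWithin_mono _ fun t (ht : t < τ) => ht.ne)
  obtain ⟨t, ⟨ht1, ht2⟩, ht3⟩ := ((hneg'.and hev).and self_mem_nhdsWithin).exists
  have ht3' : t < τ := ht3
  rw [slope_def_field] at ht1
  have h5 := hbelow t ht2.le ht3' j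
  have h6 : (g j t - K t - (g j τ - K τ)) / (t - τ) > 0 := by
    apply div_pos_of_neg_of_neg
    · rw [heq]; linarith
    · linarith
  linarith

/-- If, at late times, every member of a finite family that is a maximum of the family and is at
least `v` decreases at a definite rate, then the family is eventually below every `w > v`. -/
theorem ev_le {ι : Type*} [Finite ι] {g g' : ι → ℝ → ℝ} {v η w : ℝ} (hη : 0 < η) (hw : v < w)
    (hd : ∀ᶠ t in atTop, ∀ j, HasDerivAt (g j) (g' j t) t)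
    (h : ∀ᶠ t in atTop, ∀ M ≥ v, (∀ i, g i t ≤ M) → ∀ j, g j t = M → g' j t ≤ -η) :
    ∀ᶠ t in atTop, ∀ j, g j t ≤ w := by
  obtain ⟨t₀, ht₀⟩ := eventually_atTop.mp (hd.and h)
  obtain ⟨C, hC⟩ := (Set.finite_range (fun j => g j t₀)).bddAbove
  have hC' : ∀ j, g j t₀ ≤ C := fun j => hC ⟨j, rfl⟩
  set M₀ : ℝ := max C v + 1 with hM₀
  have hM₀v : v < M₀ := by rw [hM₀]; have := le_max_right C v; linarith
  have hM₀C : ∀ j, g j t₀ < M₀ := fun j => by
    have h1 := le_max_left C v
    have h2 := hC' j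
    rw [hM₀]; linarith
  set lam : ℝ := η / (2 * (M₀ - v)) with hlam
  have hpos : 0 < M₀ - v := by linarith
  have hlam0 : 0 < lam := by positivity
  set K : ℝ → ℝ := fun t => v + (M₀ - v) * Real.exp (-(lam * (t - t₀))) with hKdef
  set K' : ℝ → ℝ := fun t => (M₀ - v) * (Real.exp (-(lam * (t - t₀))) * (-(lam * 1))) with hK'def
  have hK : ∀ t, HasDerivAt K (K' t) t := by
    intro t
    have h1 : HasDerivAt (fun t : ℝ => -(lam * (t - t₀))) (-(lam * 1)) t :=
      (((hasDerivAt_id t).sub_const t₀).const_mul lam).neg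
    exact ((h1.exp).const_mul (M₀ - v)).const_add v
  have hexp : ∀ t ≥ t₀, Real.exp (-(lam * (t - t₀))) ≤ 1 := by
    intro t ht
    rw [Real.exp_le_one_iff]
    have : 0 ≤ lam * (t - t₀) := mul_nonneg hlam0.le (by linarith)
    linarith
  have key : ∀ t ≥ t₀, ∀ j, g j t < K t := by
    refine fence (g' := g') (K' := K') (fun t ht j => (ht₀ t ht).1 j) (fun t _ => hK t) ?_ ?_
    · intro j
      simp only [hKdef, sub_self, mul_zero, neg_zero, Real.exp_zero, mul_one]
      have := hM₀C j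
      linarith
    · intro t ht hall j hj
      have h1 := (ht₀ t ht).2 (K t) (by
        simp only [hKdef]
        have := mul_pos hpos (Real.exp_pos (-(lam * (t - t₀))))
        linarith) hall j hj
      have h2 : -(η / 2) ≤ K' t := by
        simp only [hK'def]
        have h3 := hexp t ht
        have h4 : (M₀ - v) * lam = η / 2 := by
          rw [hlam]; field_simp
        have h5 : (M₀ - v) * (Real.exp (-(lam * (t - t₀))) * (-(lam * 1)))
            = -((M₀ - v) * lam * Real.exp (-(lam * (t - t₀)))) := by ring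
        rw [h5, h4]
        have : η / 2 * Real.exp (-(lam * (t - t₀))) ≤ η / 2 * 1 :=
          mul_le_mul_of_nonneg_left h3 (by positivity)
        linarith
      linarith
  have hlim : Tendsto K atTop (𝓝 v) := by
    have h1 : Tendsto (fun t : ℝ => lam * (t - t₀)) atTop atTop :=
      (tendsto_atTop_add_const_right _ (-t₀) tendsto_id).const_mul_atTop hlam0
    have h2 : Tendsto (fun t : ℝ => Real.exp (-(lam * (t - t₀)))) atTop (𝓝 0) :=
      Real.tendsto_exp_neg_atTop_nhds_zero.comp h1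
    have h3 := (h2.const_mul (M₀ - v)).const_add v
    simpa using h3
  filter_upwards [hlim.eventually (gt_mem_nhds hw), eventually_ge_atTop t₀] with t ht ht' j
  exact ((key t ht' j).trans ht).le

/-- One function version of `ev_le`. -/
theorem ev_le1 {x x' : ℝ → ℝ} {v η w : ℝ} (hη : 0 < η) (hw : v < w)
    (hd : ∀ᶠ t in atTop, HasDerivAt x (x' t) t)
    (h : ∀ᶠ t in atTop, v ≤ x t → x' t ≤ -η) :
    ∀ᶠ t in atTop, x t ≤ w := by
  have := ev_le (ι := Unit) (g := fun _ => x) (g' := fun _ => x') hη hw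
    (hd.mono fun t ht _ => ht)
    (h.mono fun t ht M hM _ _ hj => ht (by rw [hj]; exact hM))
  exact this.mono fun t ht => ht ()

/-- Lower bound version of `ev_le1`. -/
theorem ev_ge1 {x x' : ℝ → ℝ} {v η w : ℝ} (hη : 0 < η) (hw : w < v)
    (hd : ∀ᶠ t in atTop, HasDerivAt x (x' t) t)
    (h : ∀ᶠ t in atTop, x t ≤ v → η ≤ x' t) :
    ∀ᶠ t in atTop, w ≤ x t := by
  have := ev_le1 (x := fun t => -x t) (x' := fun t => -x' t) (v := -v) (w := -w) hη
    (by linarith) (hd.mono fun t ht => ht.neg)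
    (h.mono fun t ht h1 => by have := ht (by linarith); linarith)
  exact this.mono fun t ht => by linarith

/-- `x' ≤ -c x + e` with `e → 0` gives `limsup x ≤ 0`. -/
theorem ev_decay {x x' e : ℝ → ℝ} {c w : ℝ} (hc : 0 < c) (hw : 0 < w)
    (hd : ∀ᶠ t in atTop, HasDerivAt x (x' t) t)
    (he : Tendsto e atTop (𝓝 0))
    (h : ∀ᶠ t in atTop, x' t ≤ -(c * x t) + e t) :
    ∀ᶠ t in atTop, x t ≤ w := by
  refine ev_le1 (v := w / 2) (η := c * w / 4) (by positivity) (by linarith) hd ?_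
  filter_upwards [h, he.eventually (gt_mem_nhds (show (0 : ℝ) < c * w / 4 by positivity))]
    with t h1 h2 h3
  have : c * (w / 2) ≤ c * x t := mul_le_mul_of_nonneg_left h3 hc.le
  nlinarith

end Pool.Agent.Lib.MP_4fbe7c_an
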