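import Mathlib
import Pool.Agent.Lib.MP_4fbe7c_an.Ev

/-!
Late-time analysis of the two-patch system with `n + 1` species.
-/

open Filter Topology Set

namespace Pool.Agent.Lib.MP_4fbe7c_an

variable {n : ℕ} {c1 c2 m1 m2 : ℝ} {d : Fin (n + 1) → ℝ} {a b : Fin (n + 1) → ℝ → ℝ}

/-- total density -/
def tot (a : Fin (n + 1) → ℝ → ℝ) (t : ℝ) : ℝ := ∑ j, a j t

/-- weighted difference -/
def flux (d : Fin (n + 1) → ℝ) (a b : Fin (n + 1) → ℝ → ℝ) (t : ℝ) : ℝ :=
  ∑ j, d j * (a j t - b j t)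

/-- Late-time positive solution of the two-patch system. -/
structure Late (n : ℕ) (c1 c2 m1 m2 : ℝ) (d : Fin (n + 1) → ℝ)
    (a b : Fin (n + 1) → ℝ → ℝ) : Prop where
  hc1 : 0 < c1
  hc2 : 0 < c2
  hm : m2 < m1
  hmean : 0 ≤ c1 * m1 + c2 * m2
  hd0 : 0 < d 0
  hd : StrictMono d
  pa : ∀ᶠ t in atTop, ∀ i, 0 < a i t
  pb : ∀ᶠ t in atTop, ∀ i, 0 < b i t
  da : ∀ᶠ t in atTop, ∀ i,
    HasDerivAt (a i) (d i / c1 * (b i t - a i t) + a i t * (m1 - tot a t)) t
  db : ∀ᶠ t in atTop, ∀ i,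
    HasDerivAt (b i) (d i / c2 * (a i t - b i t) + b i t * (m2 - tot b t)) t

namespace Late

variable (H : Late n c1 c2 m1 m2 d a b)
include H

theorem m1pos : 0 < m1 := by
  have h1 := H.hc1
  have h2 := H.hc2
  have h3 := H.hmean
  have h4 := H.hm
  by_contra hcon
  push Not at hcon
  have h5 : m2 < 0 := by linarith
  have h6 : c2 * m2 < 0 := mul_neg_of_pos_of_neg h2 h5
  have h7 : c1 * m1 ≤ 0 := mul_nonpos_of_nonneg_of_nonpos h1.le hcon
  linarith

theorem dpos (i : Fin (n + 1)) : 0 < d i :=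
  lt_of_lt_of_le H.hd0 (H.hd.monotone (Fin.zero_le i))

theorem d0le (i : Fin (n + 1)) : d 0 ≤ d i := H.hd.monotone (Fin.zero_le i)

theorem dA : ∀ᶠ t in atTop, HasDerivAt (tot a) (-(flux d a b t) / c1 +
    tot a t * (m1 - tot a t)) t := by
  filter_upwards [H.da] with t ht
  have h1 : HasDerivAt (tot a)
      (∑ j, (d j / c1 * (b j t - a j t) + a j t * (m1 - tot a t))) t :=
    HasDerivAt.fun_sum fun i _ => ht i
  convert h1 using 1
  rw [Finset.sum_add_distrib, ← Finset.sum_mul]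
  congr 1
  rw [flux, neg_div, Finset.sum_div, ← Finset.sum_neg_distrib]
  refine Finset.sum_congr rfl fun j _ => ?_
  ring

theorem dB : ∀ᶠ t in atTop, HasDerivAt (tot b) (flux d a b t / c2 +
    tot b t * (m2 - tot b t)) t := by
  filter_upwards [H.db] with t ht
  have h1 : HasDerivAt (tot b)
      (∑ j, (d j / c2 * (a j t - b j t) + b j t * (m2 - tot b t))) t :=
    HasDerivAt.fun_sum fun i _ => ht i
  convert h1 using 1
  rw [Finset.sum_add_distrib, ← Finset.sum_mul]
  congr 1
  rw [flux, Finset.sum_div]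
  refine Finset.sum_congr rfl fun j _ => ?_
  ring

theorem Apos : ∀ᶠ t in atTop, 0 < tot a t := by
  filter_upwards [H.pa] with t ht
  exact Finset.sum_pos (fun i _ => ht i) ⟨0, Finset.mem_univ _⟩

theorem Bpos : ∀ᶠ t in atTop, 0 < tot b t := by
  filter_upwards [H.pb] with t ht
  exact Finset.sum_pos (fun i _ => ht i) ⟨0, Finset.mem_univ _⟩

/-- Upper bound. -/
theorem upper : ∃ M > 0, ∀ᶠ t in atTop, tot a t ≤ M ∧ tot b t ≤ M := by
  have hc1 := H.hc1
  have hc2 := H.hc2
  have hm1 := H.m1pos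
  have hm := H.hm
  set c := c1 + c2 with hc
  have hcpos : 0 < c := by positivity
  have key : ∀ᶠ t in atTop, c1 * tot a t + c2 * tot b t ≤ c * (m1 + 1) + 1 := by
    refine ev_le1 (x' := fun t => c1 * (-(flux d a b t) / c1 + tot a t * (m1 - tot a t)) +
      c2 * (flux d a b t / c2 + tot b t * (m2 - tot b t))) (v := c * (m1 + 1))
      (η := c * (m1 + 1)) (by positivity) (by linarith) ?_ ?_
    · filter_upwards [H.dA, H.dB] with t h1 h2
      exact (h1.const_mul c1).add (h2.const_mul c2)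
    · filter_upwards [H.Apos, H.Bpos] with t hA hB hT
      set A := tot a t
      set B := tot b t
      have e1 : c1 * (-(flux d a b t) / c1 + A * (m1 - A)) +
          c2 * (flux d a b t / c2 + B * (m2 - B))
          = c1 * A * (m1 - A) + c2 * B * (m2 - B) := by
        field_simp
        ring
      rw [e1]
      have e2 : c1 * A * (m1 - A) + c2 * B * (m2 - B) ≤
          m1 * (c1 * A + c2 * B) - (c1 * A ^ 2 + c2 * B ^ 2) := by
        have := mul_pos (mul_pos hc2 hB) (sub_pos.mpr hm)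
        nlinarith
      have e3 : (c1 * A + c2 * B) ^ 2 ≤ c * (c1 * A ^ 2 + c2 * B ^ 2) := by
        rw [hc]
        nlinarith [mul_nonneg (mul_pos hc1 hc2).le (sq_nonneg (A - B))]
      set T := c1 * A + c2 * B
      set W := c1 * A ^ 2 + c2 * B ^ 2
      have hT0 : 0 < T := lt_of_lt_of_le (by positivity) hT
      have e4 : T * (m1 + 1) ≤ W := by
        have h5 : c * (T * (m1 + 1)) ≤ c * W := by
          have : T * (c * (m1 + 1)) ≤ T * T := mul_le_mul_of_nonneg_left hT hT0.le
          nlinarith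
        exact le_of_mul_le_mul_left h5 hcpos
      nlinarith
  refine ⟨(c * (m1 + 1) + 1) / c1 + (c * (m1 + 1) + 1) / c2, by positivity, ?_⟩
  filter_upwards [key, H.Apos, H.Bpos] with t ht hA hB
  have hK : 0 < c * (m1 + 1) + 1 := by positivity
  constructor
  · have h1 : tot a t ≤ (c * (m1 + 1) + 1) / c1 := by
      rw [le_div_iff₀ hc1]
      have := mul_pos hc2 hB
      linarith
    have h2 : 0 < (c * (m1 + 1) + 1) / c2 := by positivity
    linarith
  · have h1 : tot b t ≤ (c * (m1 + 1) + 1) / c2 := by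
      rw [le_div_iff₀ hc2]
      have := mul_pos hc1 hA
      linarith
    have h2 : 0 < (c * (m1 + 1) + 1) / c1 := by positivity
    linarith

/-- weights for persistence -/
theorem weight (i : Fin (n + 1)) : ∃ x : ℝ, 0 < x ∧ x < 1 ∧
    0 < c1 * m1 - (1 - x) * d i ∧ 0 < (1 - x) * d i + c2 * x * m2 := by
  have hc1 := H.hc1
  have hd := H.dpos i
  have hm1 := H.m1pos
  have hmean := H.hmean
  set G := c1 * m1 with hG
  have hGpos : 0 < G := mul_pos hc1 hm1
  have h1 : G / (d i + G) < min 1 (G / d i) := by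
    rw [lt_min_iff]
    constructor
    · rw [div_lt_one (by positivity)]; linarith
    · exact div_lt_div_of_pos_left hGpos hd (by linarith)
  obtain ⟨y, hy1, hy2⟩ := exists_between h1
  rw [lt_min_iff] at hy2
  have hy0 : 0 < y := lt_trans (by positivity) hy1
  refine ⟨1 - y, by linarith [hy2.1], by linarith, ?_, ?_⟩
  · have := (lt_div_iff₀ hd).mp hy2.2
    have e : (1 - (1 - y)) * d i = y * d i := by ring
    rw [e]; linarith
  · have h3 := (div_lt_iff₀ (by positivity)).mp hy1
    have e : (1 - (1 - y)) * d i = y * d i := by ring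
    rw [e]
    have h4 : -G ≤ c2 * m2 := by linarith
    have h5 : (1 - y) * (-G) ≤ (1 - y) * (c2 * m2) :=
      mul_le_mul_of_nonneg_left h4 (by linarith [hy2.1])
    nlinarith

/-- Persistence of the total population. -/
theorem persist : ∃ s > 0, ∀ᶠ t in atTop, s ≤ c1 * tot a t + c2 * tot b t := by
  have hc1 := H.hc1
  have hc2 := H.hc2
  choose x hx0 hx1 hx2 hx3 using H.weight
  -- lower bound for the weights and for the rates
  obtain ⟨x₀, hx₀, hx₀'⟩ : ∃ x₀ > 0, ∀ i, x₀ ≤ x i := by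
    obtain ⟨i, hi⟩ := Finite.exists_min x
    exact ⟨x i, hx0 i, hi⟩
  obtain ⟨κ, hκ, hκ1, hκ2⟩ : ∃ κ > 0, (∀ i, κ * c1 ≤ c1 * m1 - (1 - x i) * d i) ∧
      ∀ i, κ * (c2 * x i) ≤ (1 - x i) * d i + c2 * x i * m2 := by
    obtain ⟨i, hi⟩ := Finite.exists_min fun i => (c1 * m1 - (1 - x i) * d i) / c1
    obtain ⟨j, hj⟩ := Finite.exists_min fun i =>
      ((1 - x i) * d i + c2 * x i * m2) / (c2 * x i)
    refine ⟨min ((c1 * m1 - (1 - x i) * d i) / c1)
      (((1 - x j) * d j + c2 * x j * m2) / (c2 * x j)), ?_, ?_, ?_⟩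
    · exact lt_min (div_pos (hx2 i) hc1) (div_pos (hx3 j) (mul_pos hc2 (hx0 j)))
    · intro k
      have := (min_le_left _ (((1 - x j) * d j + c2 * x j * m2) / (c2 * x j))).trans (hi k)
      exact (le_div_iff₀ hc1).mp this
    · intro k
      have := (min_le_right ((c1 * m1 - (1 - x i) * d i) / c1) _).trans (hj k)
      exact (le_div_iff₀ (mul_pos hc2 (hx0 k))).mp this
  set S : ℝ → ℝ := fun t => ∑ i, (c1 * a i t + c2 * x i * b i t) with hS
  set S' : ℝ → ℝ := fun t => ∑ i, (c1 * (d i / c1 * (b i t - a i t) + a i t * (m1 - tot a t)) +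
    c2 * x i * (d i / c2 * (a i t - b i t) + b i t * (m2 - tot b t))) with hS'
  have hSd : ∀ᶠ t in atTop, HasDerivAt S (S' t) t := by
    filter_upwards [H.da, H.db] with t h1 h2
    exact HasDerivAt.fun_sum fun i _ => ((h1 i).const_mul c1).add ((h2 i).const_mul (c2 * x i))
  have hSpos : ∀ᶠ t in atTop, 0 < S t := by
    filter_upwards [H.pa, H.pb] with t h1 h2
    refine Finset.sum_pos (fun i _ => ?_) ⟨0, Finset.mem_univ _⟩
    have := mul_pos hc1 (h1 i)
    have := mul_pos (mul_pos hc2 (hx0 i)) (h2 i)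
    linarith
  -- the threshold
  set v : ℝ := min (c1 * (κ / 2)) (c2 * x₀ * (κ / 2)) with hv
  have hvpos : 0 < v := lt_min (by positivity) (by positivity)
  have hlow : ∀ᶠ t in atTop, S t ≤ v → κ / 2 ≤ S' t / S t := by
    filter_upwards [H.pa, H.pb, hSpos] with t h1 h2 h3 h4
    rw [le_div_iff₀ h3]
    have hA : tot a t ≤ κ / 2 := by
      have e1 : c1 * tot a t ≤ S t := by
        rw [tot, Finset.mul_sum]
        refine Finset.sum_le_sum fun i _ => ?_
        have := mul_pos (mul_pos hc2 (hx0 i)) (h2 i)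
        linarith
      have e2 : c1 * tot a t ≤ c1 * (κ / 2) := e1.trans (h4.trans (min_le_left _ _))
      exact le_of_mul_le_mul_left e2 hc1
    have hB : tot b t ≤ κ / 2 := by
      have e1 : c2 * x₀ * tot b t ≤ S t := by
        rw [tot, Finset.mul_sum]
        refine Finset.sum_le_sum fun i _ => ?_
        have e3 := mul_pos hc1 (h1 i)
        have e4 : c2 * x₀ * b i t ≤ c2 * x i * b i t :=
          mul_le_mul_of_nonneg_right (mul_le_mul_of_nonneg_left (hx₀' i) hc2.le) (h2 i).le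
        linarith
      have e2 : c2 * x₀ * tot b t ≤ c2 * x₀ * (κ / 2) :=
        e1.trans (h4.trans (min_le_right _ _))
      exact le_of_mul_le_mul_left e2 (by positivity)
    rw [hS', hS]
    simp only
    rw [Finset.mul_sum]
    refine Finset.sum_le_sum fun i _ => ?_
    have ha := h1 i
    have hb := h2 i
    have e0 : c1 * (d i / c1 * (b i t - a i t) + a i t * (m1 - tot a t)) +
      c2 * x i * (d i / c2 * (a i t - b i t) + b i t * (m2 - tot b t))
      = (c1 * m1 - (1 - x i) * d i) * a i t + ((1 - x i) * d i + c2 * x i * m2) * b i t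
        - c1 * a i t * tot a t - c2 * x i * b i t * tot b t := by
      field_simp
      ring
    rw [e0]
    have e1 : κ * c1 * a i t ≤ (c1 * m1 - (1 - x i) * d i) * a i t :=
      mul_le_mul_of_nonneg_right (hκ1 i) ha.le
    have e2 : κ * (c2 * x i) * b i t ≤ ((1 - x i) * d i + c2 * x i * m2) * b i t :=
      mul_le_mul_of_nonneg_right (hκ2 i) hb.le
    have e3 : c1 * a i t * tot a t ≤ c1 * a i t * (κ / 2) :=
      mul_le_mul_of_nonneg_left hA (by positivity)
    have e4 : c2 * x i * b i t * tot b t ≤ c2 * x i * b i t * (κ / 2) :=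
      mul_le_mul_of_nonneg_left hB (mul_pos (mul_pos hc2 (hx0 i)) hb).le
    nlinarith
  have hlog : ∀ᶠ t in atTop, Real.log v - 1 ≤ Real.log (S t) := by
    refine ev_ge1 (x' := fun t => S' t / S t) (v := Real.log v) (η := κ / 2) (by positivity)
      (by linarith) ?_ ?_
    · filter_upwards [hSd, hSpos] with t h1 h2
      exact h1.log h2.ne'
    · filter_upwards [hlow, hSpos] with t h1 h2 h3
      exact h1 ((Real.log_le_log_iff h2 hvpos).mp h3)
  refine ⟨Real.exp (Real.log v - 1), Real.exp_pos _, ?_⟩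
  filter_upwards [hlog, hSpos, H.pb] with t h1 h2 h3
  have h4 : Real.exp (Real.log v - 1) ≤ S t := by
    rw [← Real.exp_log h2]
    exact Real.exp_le_exp.mpr h1
  refine h4.trans ?_
  rw [hS]
  simp only [tot]
  rw [Finset.mul_sum, Finset.mul_sum, ← Finset.sum_add_distrib]
  refine Finset.sum_le_sum fun i _ => ?_
  have : c2 * x i * b i t ≤ c2 * b i t := by
    have := mul_le_mul_of_nonneg_left (hx1 i).le (mul_pos hc2 (h3 i)).le
    nlinarith
  linarith

/-- Persistence of the population in the poor patch. -/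
theorem Blow : ∃ β₀ > 0, ∀ᶠ t in atTop, β₀ ≤ tot b t := by
  have hc1 := H.hc1
  have hc2 := H.hc2
  have hd0 := H.hd0
  obtain ⟨M, hM, hMev⟩ := H.upper
  obtain ⟨s, hs, hsev⟩ := H.persist
  obtain ⟨dm, hdm⟩ : ∃ dm, ∀ i, d i ≤ dm := by
    obtain ⟨i, hi⟩ := Finite.exists_max d
    exact ⟨d i, hi⟩
  have hdmpos : 0 < dm := lt_of_lt_of_le hd0 (hdm 0)
  -- B' ≥ (d0/c2) A - (dm/c2) B - (|m2| + M) B
  set K : ℝ := d 0 / c2 * (c2 / c1) + dm / c2 + |m2| + M with hK
  have hKpos : 0 < K := by positivity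
  set v : ℝ := d 0 / c2 * (s / c1) / (2 * K) with hv
  have hvpos : 0 < v := by positivity
  refine ⟨v / 2, by positivity, ?_⟩
  refine ev_ge1 (v := v) (η := d 0 / c2 * (s / c1) / 2) (by positivity) (by linarith) H.dB ?_
  filter_upwards [H.pa, H.pb, hMev, hsev, H.Apos, H.Bpos] with t h1 h2 h3 h4 hA hB h5
  have e1 : d 0 * tot a t - dm * tot b t ≤ flux d a b t := by
    rw [tot, tot, flux, Finset.mul_sum, Finset.mul_sum, ← Finset.sum_sub_distrib]
    refine Finset.sum_le_sum fun i _ => ?_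
    have := mul_le_mul_of_nonneg_right (H.d0le i) (h1 i).le
    have := mul_le_mul_of_nonneg_right (hdm i) (h2 i).le
    nlinarith
  set A := tot a t
  set B := tot b t
  have e2 : (d 0 * A - dm * B) / c2 ≤ flux d a b t / c2 := by gcongr
  have e3 : -(|m2| + M) * B ≤ B * (m2 - B) := by
    have : -|m2| ≤ m2 := neg_abs_le m2
    have : B * (-(|m2| + M)) ≤ B * (m2 - B) := by
      apply mul_le_mul_of_nonneg_left _ hB.le
      linarith [h3.2]
    linarith
  have e4 : s / c1 - c2 / c1 * B ≤ A := by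
    have : s / c1 - c2 / c1 * B = (s - c2 * B) / c1 := by ring
    rw [this, div_le_iff₀ hc1]
    linarith
  have e5 : d 0 / c2 * (s / c1 - c2 / c1 * B) ≤ d 0 / c2 * A :=
    mul_le_mul_of_nonneg_left e4 (by positivity)
  have e6 : (d 0 * A - dm * B) / c2 = d 0 / c2 * A - dm / c2 * B := by ring
  have e7 : K * B ≤ K * v := mul_le_mul_of_nonneg_left h5 hKpos.le
  have e8 : K * v = d 0 / c2 * (s / c1) / 2 := by rw [hv]; field_simp
  have e9 : K * B = d 0 / c2 * (c2 / c1 * B) + dm / c2 * B + (|m2| + M) * B := by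
    rw [hK]; ring
  rw [e6] at e2
  nlinarith

end Late

end Pool.Agent.Lib.MP_4fbe7c_an
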