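import Mathlib
import Pool.Agent.Lib.MP_4fbe7c_an.Core

/-!
The ratios of the two densities, the quantities `E i`, and the main comparison lemma.
-/

open Filter Topology Set

namespace Pool.Agent.Lib.MP_4fbe7c_an

variable {n : ℕ} {c1 c2 m1 m2 : ℝ} {d : Fin (n + 1) → ℝ} {a b : Fin (n + 1) → ℝ → ℝ}

/-- ratio of the densities in the two patches -/
noncomputable def rho (a b : Fin (n + 1) → ℝ → ℝ) (i : Fin (n + 1)) (t : ℝ) : ℝ := a i t / b i t

/-- logarithmic dispersal contribution -/
noncomputable def Ei (c1 c2 : ℝ) (d : Fin (n + 1) → ℝ) (a b : Fin (n + 1) → ℝ → ℝ)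
    (i : Fin (n + 1)) (t : ℝ) : ℝ :=
  d i * (((rho a b i t)⁻¹ - 1) / c1 + (1 - rho a b i t) / c2)

/-- its relaxation rate -/
noncomputable def ki (c1 c2 : ℝ) (d : Fin (n + 1) → ℝ) (a b : Fin (n + 1) → ℝ → ℝ)
    (i : Fin (n + 1)) (t : ℝ) : ℝ :=
  d i * ((rho a b i t)⁻¹ / c1 + rho a b i t / c2)

/-- difference of the net growth rates -/
noncomputable def rr (m1 m2 : ℝ) (a b : Fin (n + 1) → ℝ → ℝ) (t : ℝ) : ℝ :=
  (m2 - tot b t) - (m1 - tot a t)

theorem Ebound {c1 c2 d a b X : ℝ} (hc1 : 0 < c1) (hc2 : 0 < c2) (hd : 0 < d) (ha : 0 < a)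
    (hb : 0 < b) (hX : 0 ≤ X) (h : d * (((a / b)⁻¹ - 1) / c1 + (1 - a / b) / c2) ≤ X) :
    (1 / c1 + 1 / c2) * (d * (b - a)) ≤ X * b := by
  rcases le_or_gt b a with hba | hba
  · have h1 : d * (b - a) ≤ 0 := mul_nonpos_of_nonneg_of_nonpos hd.le (by linarith)
    have h2 : (1 / c1 + 1 / c2) * (d * (b - a)) ≤ 0 :=
      mul_nonpos_of_nonneg_of_nonpos (by positivity) h1
    have h3 : 0 ≤ X * b := mul_nonneg hX hb.le
    linarith
  · have h1 : 1 - a / b ≤ (a / b)⁻¹ - 1 := by
      rw [inv_div]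
      have h2 : b / a - 1 - (1 - a / b) = (b - a) ^ 2 / (a * b) := by
        field_simp
      have h3 : 0 ≤ (b - a) ^ 2 / (a * b) := by positivity
      linarith
    have h2 : (1 / c1 + 1 / c2) * (1 - a / b) ≤ ((a / b)⁻¹ - 1) / c1 + (1 - a / b) / c2 := by
      have : (1 - a / b) / c1 ≤ ((a / b)⁻¹ - 1) / c1 := by gcongr
      have e : (1 / c1 + 1 / c2) * (1 - a / b) = (1 - a / b) / c1 + (1 - a / b) / c2 := by ring
      linarith
    have h3 : d * ((1 / c1 + 1 / c2) * (1 - a / b)) ≤ X :=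
      (mul_le_mul_of_nonneg_left h2 hd.le).trans h
    have h4 : d * ((1 / c1 + 1 / c2) * (1 - a / b)) * b ≤ X * b :=
      mul_le_mul_of_nonneg_right h3 hb.le
    have e : d * ((1 / c1 + 1 / c2) * (1 - a / b)) * b = (1 / c1 + 1 / c2) * (d * (b - a)) := by
      field_simp
    linarith

namespace Late

variable (H : Late n c1 c2 m1 m2 d a b)
include H

theorem rhopos : ∀ᶠ t in atTop, ∀ i, 0 < rho a b i t := by
  filter_upwards [H.pa, H.pb] with t h1 h2 i
  exact div_pos (h1 i) (h2 i)

theorem drho : ∀ᶠ t in atTop, ∀ i,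
    HasDerivAt (rho a b i) (rho a b i t * (Ei c1 c2 d a b i t - rr m1 m2 a b t)) t := by
  have hc1 := H.hc1
  have hc2 := H.hc2
  filter_upwards [H.pa, H.pb, H.da, H.db] with t h1 h2 h3 h4 i
  have ha := h1 i
  have hb := h2 i
  have h5 : HasDerivAt (rho a b i) _ t := (h3 i).div (h4 i) hb.ne'
  refine h5.congr_deriv ?_
  simp only [rho, Ei, rr]
  field_simp
  ring

theorem dE : ∀ᶠ t in atTop, ∀ i,
    HasDerivAt (Ei c1 c2 d a b i)
      (ki c1 c2 d a b i t * (rr m1 m2 a b t - Ei c1 c2 d a b i t)) t := by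
  have hc1 := H.hc1
  have hc2 := H.hc2
  filter_upwards [H.drho, H.rhopos] with t h1 h2 i
  have hρ := h2 i
  have h3 := (h1 i).inv hρ.ne'
  have h4 : HasDerivAt (Ei c1 c2 d a b i) _ t :=
    (((h3.sub_const 1).div_const c1).add (((h1 i).const_sub 1).div_const c2)).const_mul (d i)
  refine h4.congr_deriv ?_
  simp only [ki]
  field_simp
  ring

theorem dr : ∀ᶠ t in atTop,
    HasDerivAt (rr m1 m2 a b) (-((1 / c1 + 1 / c2) * flux d a b t) +
      (m2 - tot b t) * (tot a t - tot b t) - rr m1 m2 a b t * tot a t) t := by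
  filter_upwards [H.dA, H.dB] with t h1 h2
  have h3 : HasDerivAt (rr m1 m2 a b) _ t := (h2.const_sub m2).sub (h1.const_sub m1)
  refine h3.congr_deriv ?_
  simp only [rr]
  ring

theorem dbeta : ∀ᶠ t in atTop,
    HasDerivAt (fun t => m2 - tot b t) (-(flux d a b t / c2 + tot b t * (m2 - tot b t))) t := by
  filter_upwards [H.dB] with t h2
  exact h2.const_sub m2

theorem kmin : ∃ k > 0, ∀ᶠ t in atTop, ∀ i, k ≤ ki c1 c2 d a b i t := by
  have hc1 := H.hc1
  have hc2 := H.hc2
  have hd0 := H.hd0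
  refine ⟨d 0 * min (1 / c1) (1 / c2), by positivity, ?_⟩
  filter_upwards [H.rhopos] with t h i
  have hρ := h i
  have h1 : min (1 / c1) (1 / c2) ≤ (rho a b i t)⁻¹ / c1 + rho a b i t / c2 := by
    rcases le_total 1 (rho a b i t) with h2 | h2
    · refine (min_le_right _ _).trans ?_
      have h3 : 1 / c2 ≤ rho a b i t / c2 := by gcongr
      have h4 : 0 < (rho a b i t)⁻¹ / c1 := by positivity
      linarith
    · refine (min_le_left _ _).trans ?_
      have h3 : 1 / c1 ≤ (rho a b i t)⁻¹ / c1 := by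
        gcongr
        exact (one_le_inv₀ hρ).mpr h2
      have h4 : 0 < rho a b i t / c2 := by positivity
      linarith
  rw [ki]
  exact mul_le_mul (H.d0le i) h1 (by positivity) (H.dpos i).le

/-- from a common bound for the `Ei` to a bound for the flux -/
theorem fluxbound : ∀ᶠ t in atTop, ∀ X ≥ 0, (∀ i, Ei c1 c2 d a b i t ≤ X) →
    -((1 / c1 + 1 / c2) * flux d a b t) ≤ X * tot b t := by
  filter_upwards [H.pa, H.pb] with t h1 h2 X hX h3
  rw [flux, tot, Finset.mul_sum, Finset.mul_sum, ← Finset.sum_neg_distrib]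
  refine Finset.sum_le_sum fun i _ => ?_
  have := Ebound H.hc1 H.hc2 (H.dpos i) (h1 i) (h2 i) hX (h3 i)
  linarith

/-- The comparison lemma: `limsup` of `r`, `β` and of every `E i` is at most zero. -/
theorem comparison {δ : ℝ} (hδ : 0 < δ) : ∀ᶠ t in atTop, rr m1 m2 a b t ≤ δ ∧
    m2 - tot b t ≤ δ ∧ ∀ i, Ei c1 c2 d a b i t ≤ δ := by
  have hc1 := H.hc1
  have hc2 := H.hc2
  have hm := H.hm
  obtain ⟨M, hM, hMev⟩ := H.upper
  obtain ⟨b₀, hb₀, hbev⟩ := H.Blow
  obtain ⟨k, hk, hkev⟩ := H.kmin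
  set ω1 : ℝ := c1 / (c1 + c2) with hω1
  set ω2 : ℝ := c2 / (c1 + c2) with hω2
  have hω1pos : 0 < ω1 := by positivity
  have hω2pos : 0 < ω2 := by positivity
  have hω : ω1 + ω2 = 1 := by rw [hω1, hω2]; field_simp
  set Δ : ℝ := m1 - m2 with hΔ
  have hΔpos : 0 < Δ := by rw [hΔ]; linarith
  set ε : ℝ := min (1 / 2) (ω2 * Δ / (4 * M)) with hε
  have hεpos : 0 < ε := lt_min (by norm_num) (by positivity)
  have hε1 : ε ≤ 1 / 2 := min_le_left _ _
  have hε2 : 2 * ε * M ≤ ω2 * Δ / 2 := by
    have h1 : ε ≤ ω2 * Δ / (4 * M) := min_le_right _ _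
    have h2 : ε * (4 * M) ≤ ω2 * Δ := (le_div_iff₀ (by positivity)).mp h1
    linarith
  set v : ℝ := δ / 4 with hv
  have hvpos : 0 < v := by positivity
  set g : Option (Option (Fin (n + 1))) → ℝ → ℝ := fun j t =>
    match j with
    | none => rr m1 m2 a b t
    | some none => (m2 - tot b t) / (ω1 * (1 + 2 * ε))
    | some (some i) => Ei c1 c2 d a b i t / (1 + ε) with hg
  set g' : Option (Option (Fin (n + 1))) → ℝ → ℝ := fun j t =>
    match j with
    | none => -((1 / c1 + 1 / c2) * flux d a b t) +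
      (m2 - tot b t) * (tot a t - tot b t) - rr m1 m2 a b t * tot a t
    | some none => (-(flux d a b t / c2 + tot b t * (m2 - tot b t))) / (ω1 * (1 + 2 * ε))
    | some (some i) => (ki c1 c2 d a b i t * (rr m1 m2 a b t - Ei c1 c2 d a b i t)) / (1 + ε)
    with hg'
  set η : ℝ := min (v * (ω2 * Δ / 2)) (min (ε * v * b₀ / 2) (k * ε * v / 2)) with hη
  have hηpos : 0 < η := lt_min (by positivity) (lt_min (by positivity) (by positivity))
  have hη1 : η ≤ v * (ω2 * Δ / 2) := min_le_left _ _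
  have hη2 : η ≤ ε * v * b₀ / 2 := (min_le_right _ _).trans (min_le_left _ _)
  have hη3 : η ≤ k * ε * v / 2 := (min_le_right _ _).trans (min_le_right _ _)
  have main : ∀ᶠ t in atTop, ∀ j, g j t ≤ δ / 2 := by
    refine ev_le (g' := g') (v := v) (η := η) hηpos (by rw [hv]; linarith) ?_ ?_
    · filter_upwards [H.dr, H.dbeta, H.dE] with t h1 h2 h3 j
      match j with
      | none => exact h1
      | some none => exact h2.div_const _
      | some (some i) => exact (h3 i).div_const _
    · filter_upwards [H.fluxbound, hMev, hbev, hkev, H.Apos] with t hfl hMt hbt hkt hA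
        R hR hall j hj
      have hRpos : 0 < R := lt_of_lt_of_le hvpos hR
      have hr : rr m1 m2 a b t ≤ R := hall none
      have hβ : m2 - tot b t ≤ R * (ω1 * (1 + 2 * ε)) :=
        (div_le_iff₀ (by positivity)).mp (hall (some none))
      have hE : ∀ i, Ei c1 c2 d a b i t ≤ R * (1 + ε) := fun i =>
        (div_le_iff₀ (by positivity)).mp (hall (some (some i)))
      have hfl' := hfl (R * (1 + ε)) (by positivity) hE
      have hAB : tot a t - tot b t = Δ + rr m1 m2 a b t := by
        rw [rr, hΔ]; ring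
      set A := tot a t
      set B := tot b t
      have hBpos : 0 < B := lt_of_lt_of_le hb₀ hbt
      match j with
      | none =>
        have hj' : rr m1 m2 a b t = R := hj
        change -((1 / c1 + 1 / c2) * flux d a b t) + (m2 - B) * (A - B) -
          rr m1 m2 a b t * A ≤ -η
        have hABpos : Δ ≤ A - B := by rw [hAB, hj']; linarith
        have e1 : (m2 - B) * (A - B) ≤ R * (ω1 * (1 + 2 * ε)) * (A - B) :=
          mul_le_mul_of_nonneg_right hβ (by linarith)
        rw [hj']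
        have e2 : R * (1 + ε) * B + R * (ω1 * (1 + 2 * ε)) * (A - B) - R * A =
            R * (-(ω2 * (A - B)) + ε * (B + 2 * ω1 * (A - B))) := by
          have : ω1 = 1 - ω2 := by linarith
          rw [this]; ring
        have e3 : ω2 * Δ ≤ ω2 * (A - B) := mul_le_mul_of_nonneg_left hABpos hω2pos.le
        have e4 : B + 2 * ω1 * (A - B) ≤ 2 * M := by
          have h5 : ω1 * (A - B) ≤ 1 * (A - B) :=
            mul_le_mul_of_nonneg_right (by linarith) (by linarith)
          linarith [hMt.1]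
        have e5 : ε * (B + 2 * ω1 * (A - B)) ≤ ε * (2 * M) :=
          mul_le_mul_of_nonneg_left e4 hεpos.le
        have e6 : R * (-(ω2 * (A - B)) + ε * (B + 2 * ω1 * (A - B))) ≤ R * (-(ω2 * Δ / 2)) :=
          mul_le_mul_of_nonneg_left (by linarith) hRpos.le
        have e7 : v * (ω2 * Δ / 2) ≤ R * (ω2 * Δ / 2) :=
          mul_le_mul_of_nonneg_right hR (by positivity)
        linarith
      | some none =>
        have hj' : (m2 - B) / (ω1 * (1 + 2 * ε)) = R := hj
        change (-(flux d a b t / c2 + B * (m2 - B))) / (ω1 * (1 + 2 * ε)) ≤ -η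
        have hβ' : m2 - B = R * (ω1 * (1 + 2 * ε)) := by
          rw [← hj']; field_simp
        rw [div_le_iff₀ (by positivity), hβ']
        have e1 : -(flux d a b t / c2) = ω1 * (-((1 / c1 + 1 / c2) * flux d a b t)) := by
          rw [hω1]; field_simp
          ring
        have e2 : ω1 * (-((1 / c1 + 1 / c2) * flux d a b t)) ≤ ω1 * (R * (1 + ε) * B) :=
          mul_le_mul_of_nonneg_left hfl' hω1pos.le
        have e3 : η * (1 + 2 * ε) ≤ ε * v * b₀ / 2 * 2 :=
          mul_le_mul hη2 (by linarith) (by positivity) (by positivity)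
        have e4 : ε * v * b₀ ≤ ε * R * B := by
          gcongr
        have e5 : ω1 * (η * (1 + 2 * ε)) ≤ ω1 * (ε * R * B) :=
          mul_le_mul_of_nonneg_left (by linarith) hω1pos.le
        nlinarith
      | some (some i) =>
        have hj' : Ei c1 c2 d a b i t / (1 + ε) = R := hj
        change (ki c1 c2 d a b i t * (rr m1 m2 a b t - Ei c1 c2 d a b i t)) / (1 + ε) ≤ -η
        have hE' : Ei c1 c2 d a b i t = R * (1 + ε) := by
          rw [← hj']; field_simp
        rw [div_le_iff₀ (by positivity), hE']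
        have e1 : rr m1 m2 a b t - R * (1 + ε) ≤ -(ε * v) := by
          have : ε * v ≤ ε * R := mul_le_mul_of_nonneg_left hR hεpos.le
          linarith
        have e2 : ki c1 c2 d a b i t * (rr m1 m2 a b t - R * (1 + ε)) ≤
            ki c1 c2 d a b i t * (-(ε * v)) :=
          mul_le_mul_of_nonneg_left e1 (hk.le.trans (hkt i))
        have e3 : k * (ε * v) ≤ ki c1 c2 d a b i t * (ε * v) :=
          mul_le_mul_of_nonneg_right (hkt i) (by positivity)
        have e4 : η * (1 + ε) ≤ k * ε * v / 2 * 2 :=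
          mul_le_mul hη3 (by linarith) (by positivity) (by positivity)
        linarith
  filter_upwards [main] with t ht
  refine ⟨?_, ?_, ?_⟩
  · have := ht none
    change rr m1 m2 a b t ≤ δ / 2 at this
    linarith
  · have := ht (some none)
    change (m2 - tot b t) / (ω1 * (1 + 2 * ε)) ≤ δ / 2 at this
    rw [div_le_iff₀ (by positivity)] at this
    have h1 : ω1 * (1 + 2 * ε) ≤ 1 * 2 :=
      mul_le_mul (by linarith) (by linarith) (by positivity) (by norm_num)
    have h2 : δ / 2 * (ω1 * (1 + 2 * ε)) ≤ δ / 2 * (1 * 2) :=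
      mul_le_mul_of_nonneg_left h1 (by positivity)
    linarith
  · intro i
    have := ht (some (some i))
    change Ei c1 c2 d a b i t / (1 + ε) ≤ δ / 2 at this
    rw [div_le_iff₀ (by positivity)] at this
    have h2 : δ / 2 * (1 + ε) ≤ δ / 2 * 2 :=
      mul_le_mul_of_nonneg_left (by linarith) (by positivity)
    linarith

end Late

end Pool.Agent.Lib.MP_4fbe7c_an
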