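import Mathlib
import Pool.Agent.Lib.MP_4fbe7c_an.Ratio

/-!
Eventual ordering of the ratios and extinction of all species but the slowest one.
-/

open Filter Topology Set

namespace Pool.Agent.Lib.MP_4fbe7c_an

variable {n : ℕ} {c1 c2 m1 m2 : ℝ} {d : Fin (n + 1) → ℝ} {a b : Fin (n + 1) → ℝ → ℝ}

namespace Late

variable (H : Late n c1 c2 m1 m2 d a b)
include H

/-- `r` is eventually bounded above by a negative constant. -/
theorem gamma_low : ∃ γ₀ > 0, ∀ᶠ t in atTop, rr m1 m2 a b t ≤ -γ₀ := by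
  have hc1 := H.hc1
  have hc2 := H.hc2
  have hm := H.hm
  have hd0 := H.hd0
  obtain ⟨M, hM, hMev⟩ := H.upper
  set κ : ℝ := 1 / c1 + 1 / c2 with hκ
  have hκpos : 0 < κ := by positivity
  set Δ : ℝ := m1 - m2 with hΔ
  have hΔpos : 0 < Δ := by rw [hΔ]; linarith
  set q : ℝ := κ * d 0 * Δ with hq
  have hqpos : 0 < q := by positivity
  set v : ℝ := min (Δ / 2) (q / (8 * M)) with hv
  have hvpos : 0 < v := lt_min (by positivity) (by positivity)
  have hv1 : v ≤ Δ / 2 := min_le_left _ _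
  have hv2 : v * M ≤ q / 8 := by
    have h1 : v ≤ q / (8 * M) := min_le_right _ _
    have h2 := (le_div_iff₀ (by positivity)).mp h1
    linarith
  set δ : ℝ := q / (16 * M) with hδ
  have hδpos : 0 < δ := by positivity
  have hδM : δ * M = q / 16 := by rw [hδ]; field_simp
  refine ⟨v / 2, by positivity, ?_⟩
  refine ev_le1 (v := -v) (η := q / 8) (by positivity) (by linarith) H.dr ?_
  filter_upwards [H.comparison hδpos, hMev, H.pa, H.pb, H.Apos, H.Bpos] with t hcomp hMt ha hb
    hA hB hr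
  obtain ⟨-, hβ, hE⟩ := hcomp
  have hAB : tot a t - tot b t = Δ + rr m1 m2 a b t := by
    rw [rr, hΔ]; ring
  -- flux lower bound
  have hflux : κ * (d 0 * (tot a t - tot b t)) - δ * tot b t ≤ κ * flux d a b t := by
    have h1 : ∀ i, κ * ((d i - d 0) * (b i t - a i t)) ≤ δ * b i t := by
      intro i
      have h2 := Ebound hc1 hc2 (H.dpos i) (ha i) (hb i) hδpos.le (hE i)
      have hdi := H.d0le i
      rcases le_or_gt (b i t) (a i t) with hba | hba
      · have h3 : (d i - d 0) * (b i t - a i t) ≤ 0 :=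
          mul_nonpos_of_nonneg_of_nonpos (by linarith) (by linarith)
        have h4 : κ * ((d i - d 0) * (b i t - a i t)) ≤ 0 :=
          mul_nonpos_of_nonneg_of_nonpos hκpos.le h3
        have h5 : 0 ≤ δ * b i t := mul_nonneg hδpos.le (hb i).le
        linarith
      · have h3 : (d i - d 0) * (b i t - a i t) ≤ d i * (b i t - a i t) :=
          mul_le_mul_of_nonneg_right (by linarith) (by linarith)
        have h4 := mul_le_mul_of_nonneg_left h3 hκpos.le
        exact h4.trans h2
    have h6 : ∑ i, κ * ((d i - d 0) * (b i t - a i t)) ≤ ∑ i, δ * b i t :=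
      Finset.sum_le_sum fun i _ => h1 i
    have h7 : ∑ i, κ * ((d i - d 0) * (b i t - a i t)) =
        κ * (d 0 * (tot a t - tot b t)) - κ * flux d a b t := by
      rw [tot, tot, flux, ← Finset.sum_sub_distrib, Finset.mul_sum, Finset.mul_sum,
        Finset.mul_sum, ← Finset.sum_sub_distrib]
      refine Finset.sum_congr rfl fun i _ => ?_
      ring
    have h8 : ∑ i, δ * b i t = δ * tot b t := by rw [tot, Finset.mul_sum]
    linarith
  set A := tot a t
  set B := tot b t
  set r := rr m1 m2 a b t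
  have hABlow : Δ / 2 ≤ A - B := by linarith
  have e1 : (m2 - B) * (A - B) ≤ δ * M := by
    have h1 : (m2 - B) * (A - B) ≤ δ * (A - B) :=
      mul_le_mul_of_nonneg_right hβ (by linarith)
    have h2 : δ * (A - B) ≤ δ * M := mul_le_mul_of_nonneg_left (by linarith [hMt.1]) hδpos.le
    linarith
  have e2 : -(r * A) ≤ v * M := by
    have h1 : -r * A ≤ v * A := mul_le_mul_of_nonneg_right (by linarith) hA.le
    have h2 : v * A ≤ v * M := mul_le_mul_of_nonneg_left hMt.1 hvpos.le
    linarith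
  have e3 : δ * B ≤ δ * M := mul_le_mul_of_nonneg_left hMt.2 hδpos.le
  have e4 : q / 2 ≤ κ * (d 0 * (A - B)) := by
    have h1 : κ * d 0 * (Δ / 2) ≤ κ * d 0 * (A - B) :=
      mul_le_mul_of_nonneg_left hABlow (by positivity)
    have h2 : κ * d 0 * (Δ / 2) = q / 2 := by rw [hq]; ring
    linarith
  linarith

/-- every `E i` is eventually bounded above by a negative constant -/
theorem E_low : ∃ e₀ > 0, ∀ᶠ t in atTop, ∀ i, Ei c1 c2 d a b i t ≤ -e₀ := by
  obtain ⟨γ₀, hγ₀, hγ⟩ := H.gamma_low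
  obtain ⟨k, hk, hkev⟩ := H.kmin
  refine ⟨γ₀ / 4, by positivity, ?_⟩
  rw [eventually_all]
  intro i
  have hd := (H.dE).mono fun t h => h i
  refine ev_le1 (v := -(γ₀ / 2)) (η := k * (γ₀ / 2)) (by positivity) (by linarith) hd ?_
  filter_upwards [hγ, hkev] with t h1 h2 h3
  have h4 : rr m1 m2 a b t - Ei c1 c2 d a b i t ≤ -(γ₀ / 2) := by linarith
  have h5 := mul_le_mul_of_nonneg_left h4 (hk.le.trans (h2 i))
  have h6 : k * (γ₀ / 2) ≤ ki c1 c2 d a b i t * (γ₀ / 2) :=
    mul_le_mul_of_nonneg_right (h2 i) (by positivity)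
  linarith

/-- ratios are eventually larger than one -/
theorem rho_gt : ∀ᶠ t in atTop, ∀ i, 1 < rho a b i t := by
  have hc1 := H.hc1
  have hc2 := H.hc2
  obtain ⟨e₀, he₀, he⟩ := H.E_low
  filter_upwards [he, H.rhopos] with t h1 h2 i
  by_contra h3
  push Not at h3
  have h4 : 0 ≤ Ei c1 c2 d a b i t := by
    have h5 : 0 ≤ (rho a b i t)⁻¹ - 1 := by
      have := (one_le_inv₀ (h2 i)).mpr h3
      linarith
    have h6 : 0 ≤ 1 - rho a b i t := by linarith
    rw [Ei]
    have := H.dpos i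
    positivity
  linarith [h1 i]

/-- ratios are eventually bounded above -/
theorem rho_le : ∃ R > 1, ∀ᶠ t in atTop, ∀ i, rho a b i t ≤ R := by
  have hc1 := H.hc1
  have hc2 := H.hc2
  have hd0 := H.hd0
  have hm := H.hm
  obtain ⟨M, hM, hMev⟩ := H.upper
  set v : ℝ := 1 + c2 * (m1 - m2 + M + 1) / d 0 with hv
  have hpos : 0 < m1 - m2 + M + 1 := by linarith
  have hv1 : 1 < v := by
    have : 0 < c2 * (m1 - m2 + M + 1) / d 0 := by positivity
    rw [hv]; linarith
  refine ⟨v + 1, by linarith, ?_⟩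
  rw [eventually_all]
  intro i
  have hd := (H.drho).mono fun t h => h i
  refine ev_le1 (v := v) (η := 1) (by norm_num) (by linarith) hd ?_
  filter_upwards [hMev, H.Apos, H.rho_gt] with t h1 h2 h3 h4
  have h5 : -rr m1 m2 a b t ≤ m1 - m2 + M := by
    rw [rr]; linarith [h1.2]
  have hdi := H.d0le i
  have hdi' := H.dpos i
  have h6 : Ei c1 c2 d a b i t ≤ -(m1 - m2 + M + 1) := by
    rw [Ei]
    have h7 : ((rho a b i t)⁻¹ - 1) / c1 ≤ 0 := by
      have := inv_lt_one_of_one_lt₀ (h3 i)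
      apply div_nonpos_of_nonpos_of_nonneg _ hc1.le
      linarith
    have h8 : (1 - rho a b i t) / c2 ≤ -((m1 - m2 + M + 1) / d 0) := by
      rw [div_le_iff₀ hc2]
      have : c2 * (m1 - m2 + M + 1) / d 0 = (m1 - m2 + M + 1) / d 0 * c2 := by ring
      linarith
    have h9 : d i * (((rho a b i t)⁻¹ - 1) / c1 + (1 - rho a b i t) / c2) ≤
        d i * (-((m1 - m2 + M + 1) / d 0)) :=
      mul_le_mul_of_nonneg_left (by linarith) hdi'.le
    have h10 : d 0 * ((m1 - m2 + M + 1) / d 0) ≤ d i * ((m1 - m2 + M + 1) / d 0) :=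
      mul_le_mul_of_nonneg_right hdi (by positivity)
    have h11 : d 0 * ((m1 - m2 + M + 1) / d 0) = m1 - m2 + M + 1 := by field_simp
    linarith
  have h7 : Ei c1 c2 d a b i t - rr m1 m2 a b t ≤ -1 := by linarith
  have h8 : rho a b i t * (Ei c1 c2 d a b i t - rr m1 m2 a b t) ≤ rho a b i t * (-1) :=
    mul_le_mul_of_nonneg_left h7 (by linarith [h3 i])
  linarith [h3 i]

/-- The ratio of the slowest species is eventually the largest, by a definite factor. -/
theorem order : ∃ δ > 0, ∀ᶠ t in atTop, ∀ i, i ≠ 0 →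
    (1 + δ) * rho a b i t ≤ rho a b 0 t := by
  have hc1 := H.hc1
  have hc2 := H.hc2
  have hd0 := H.hd0
  obtain ⟨e₀, he₀, he⟩ := H.E_low
  obtain ⟨R, hR, hRev⟩ := H.rho_le
  -- the minimal relative gap
  have hgap : ∃ g > 0, ∀ i : Fin (n + 1), i ≠ 0 → g ≤ 1 - d 0 / d i := by
    by_cases hn : ∃ i : Fin (n + 1), i ≠ 0
    · obtain ⟨i₀, hi₀⟩ := hn
      have : Nonempty {i : Fin (n + 1) // i ≠ 0} := ⟨⟨i₀, hi₀⟩⟩
      obtain ⟨i, hi⟩ := Finite.exists_min fun i : {i : Fin (n + 1) // i ≠ 0} => 1 - d 0 / d i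
      refine ⟨1 - d 0 / d i, ?_, fun j hj => hi ⟨j, hj⟩⟩
      have h1 : d 0 < d i := H.hd (Fin.pos_iff_ne_zero.mpr i.2)
      have h2 : d 0 / d i < 1 := (div_lt_one (H.dpos i)).mpr h1
      linarith
    · push Not at hn
      exact ⟨1, one_pos, fun i hi => absurd (hn i) hi⟩
  obtain ⟨g, hg, hgi⟩ := hgap
  set C : ℝ := d 0 * (1 / c1 + R / c2) with hC
  have hCpos : 0 < C := by positivity
  set δ : ℝ := g * e₀ / (2 * C) with hδ
  have hδpos : 0 < δ := by positivity
  have hδC : δ * C = g * e₀ / 2 := by rw [hδ]; field_simp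
  refine ⟨δ / 2, by positivity, ?_⟩
  have key : ∀ i : Fin (n + 1), i ≠ 0 → ∀ᶠ t in atTop,
      1 + δ / 2 ≤ rho a b 0 t / rho a b i t := by
    intro i hi
    have hd : ∀ᶠ t in atTop, HasDerivAt (fun t => rho a b 0 t / rho a b i t)
        (rho a b 0 t / rho a b i t * (Ei c1 c2 d a b 0 t - Ei c1 c2 d a b i t)) t := by
      filter_upwards [H.drho, H.rhopos] with t h1 h2
      refine ((h1 0).div (h1 i) (h2 i).ne').congr_deriv ?_
      have := (h2 i).ne'
      field_simp
      ring
    refine ev_ge1 (v := 1 + δ) (η := 1 / R * (g * e₀ / 2)) (by positivity) (by linarith) hd ?_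
    filter_upwards [he, hRev, H.rho_gt] with t h1 h2 h3 h4
    have hρ0 := h3 0
    have hρi := h3 i
    have hdi := H.dpos i
    have hle : rho a b 0 t ≤ (1 + δ) * rho a b i t := (div_le_iff₀ (by linarith)).mp h4
    -- lower bound for the ratio
    have h5 : 1 / R ≤ rho a b 0 t / rho a b i t := by
      have := h2 i
      gcongr
    -- E 0 ≥ (d 0 / d i) E i - δ C
    have h6 : d 0 / d i * Ei c1 c2 d a b i t - δ * C ≤ Ei c1 c2 d a b 0 t := by
      have e1 : d 0 / d i * Ei c1 c2 d a b i t =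
          d 0 * (((rho a b i t)⁻¹ - 1) / c1 + (1 - rho a b i t) / c2) := by
        rw [Ei]; field_simp
      have e2 : (rho a b i t)⁻¹ - δ ≤ (rho a b 0 t)⁻¹ := by
        have h7 : ((1 + δ) * rho a b i t)⁻¹ ≤ (rho a b 0 t)⁻¹ :=
          inv_anti₀ (by linarith) hle
        have h8 : (rho a b i t)⁻¹ - δ ≤ ((1 + δ) * rho a b i t)⁻¹ := by
          have h9 : (rho a b i t)⁻¹ - ((1 + δ) * rho a b i t)⁻¹ =
              δ / ((1 + δ) * rho a b i t) := by
            have : rho a b i t ≠ 0 := by linarith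
            field_simp
            ring
          have h10 : δ / ((1 + δ) * rho a b i t) ≤ δ := by
            apply div_le_self hδpos.le
            nlinarith
          linarith
        linarith
      have e3 : (rho a b i t)⁻¹ / c1 - δ * (1 / c1) ≤ (rho a b 0 t)⁻¹ / c1 := by
        have : ((rho a b i t)⁻¹ - δ) / c1 ≤ (rho a b 0 t)⁻¹ / c1 := by gcongr
        have e : ((rho a b i t)⁻¹ - δ) / c1 = (rho a b i t)⁻¹ / c1 - δ * (1 / c1) := by ring
        linarith
      have e4 : rho a b 0 t / c2 ≤ rho a b i t / c2 + δ * (R / c2) := by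
        have h7 : rho a b 0 t ≤ rho a b i t + δ * R := by
          have : δ * rho a b i t ≤ δ * R := mul_le_mul_of_nonneg_left (h2 i) hδpos.le
          linarith
        have h8 : rho a b 0 t / c2 ≤ (rho a b i t + δ * R) / c2 := by gcongr
        have e : (rho a b i t + δ * R) / c2 = rho a b i t / c2 + δ * (R / c2) := by ring
        linarith
      rw [e1, hC, Ei]
      have e5 : d 0 * (((rho a b i t)⁻¹ - 1) / c1 + (1 - rho a b i t) / c2) -
          δ * (d 0 * (1 / c1 + R / c2)) =
          d 0 * (((rho a b i t)⁻¹ / c1 - δ * (1 / c1)) - 1 / c1 + 1 / c2 -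
            (rho a b i t / c2 + δ * (R / c2))) := by ring
      rw [e5]
      apply mul_le_mul_of_nonneg_left _ hd0.le
      have e6 : ((rho a b 0 t)⁻¹ - 1) / c1 + (1 - rho a b 0 t) / c2 =
        (rho a b 0 t)⁻¹ / c1 - 1 / c1 + 1 / c2 - rho a b 0 t / c2 := by ring
      rw [e6]
      linarith
    have h7 : g * e₀ / 2 ≤ Ei c1 c2 d a b 0 t - Ei c1 c2 d a b i t := by
      have h8 : (1 - d 0 / d i) * e₀ ≤ (1 - d 0 / d i) * (-Ei c1 c2 d a b i t) :=
        mul_le_mul_of_nonneg_left (by linarith [h1 i]) (by linarith [hgi i hi])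
      have h9 : g * e₀ ≤ (1 - d 0 / d i) * e₀ :=
        mul_le_mul_of_nonneg_right (hgi i hi) he₀.le
      linarith
    exact mul_le_mul h5 h7 (by positivity) (by positivity)
  have key' : ∀ᶠ t in atTop, ∀ i : Fin (n + 1), i ≠ 0 →
      1 + δ / 2 ≤ rho a b 0 t / rho a b i t := by
    rw [eventually_all]
    intro i
    by_cases hi : i = 0
    · exact Eventually.of_forall fun t h => absurd hi h
    · exact (key i hi).mono fun t h _ => h
  filter_upwards [key', H.rhopos] with t h1 h2 i hi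
  exact (le_div_iff₀ (h2 i)).mp (h1 i hi)

/-- Extinction of all species but the slowest one. -/
theorem extinct (i : Fin (n + 1)) (hi : i ≠ 0) : Tendsto (a i) atTop (𝓝 0) ∧
    Tendsto (b i) atTop (𝓝 0) := by
  have hc1 := H.hc1
  have hc2 := H.hc2
  obtain ⟨γ₀, hγ₀, hγ⟩ := H.gamma_low
  obtain ⟨R, hR, hRev⟩ := H.rho_le
  obtain ⟨δ, hδ, hord⟩ := H.order
  obtain ⟨M, hM, hMev⟩ := H.upper
  set Q : ℝ → ℝ := fun t => (c1 * a i t + c2 * b i t) / (c1 * a 0 t + c2 * b 0 t) with hQ
  set K : ℝ := (c1 * R + c2) * (c1 * R + c2) with hK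
  set c : ℝ := γ₀ * (c1 * c2 * δ) / K with hc
  have hKpos : 0 < K := by positivity
  have hcpos : 0 < c := by positivity
  have hTd : ∀ j, ∀ᶠ t in atTop, HasDerivAt (fun t => c1 * a j t + c2 * b j t)
      (c1 * a j t * (m1 - tot a t) + c2 * b j t * (m2 - tot b t)) t := by
    intro j
    filter_upwards [H.da, H.db] with t h1 h2
    refine (((h1 j).const_mul c1).add ((h2 j).const_mul c2)).congr_deriv ?_
    field_simp
    ring
  have hQd : ∀ᶠ t in atTop, HasDerivAt Q
      (-(Q t * (-rr m1 m2 a b t * (c1 * c2 * (rho a b 0 t - rho a b i t)) /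
        ((c1 * rho a b 0 t + c2) * (c1 * rho a b i t + c2))))) t := by
    filter_upwards [hTd i, hTd 0, H.pa, H.pb] with t h1 h2 h3 h4
    have ha0 := h3 0
    have hb0 := h4 0
    have hai := h3 i
    have hbi := h4 i
    have hT0 : 0 < c1 * a 0 t + c2 * b 0 t := by positivity
    have hTi : 0 < c1 * a i t + c2 * b i t := by positivity
    refine (h1.div h2 hT0.ne').congr_deriv ?_
    simp only [hQ, rho, rr]
    field_simp
    ring
  have hQle : ∀ w > 0, ∀ᶠ t in atTop, Q t ≤ w := by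
    intro w hw
    refine ev_decay (e := fun _ => 0) hcpos hw hQd tendsto_const_nhds ?_
    filter_upwards [hγ, hRev, hord, H.rho_gt, H.pa, H.pb] with t h1 h2 h3 h4 h5 h6
    have hρ0 := h4 0
    have hρi := h4 i
    have hQt : 0 < Q t := by
      have := h5 i
      have := h5 0
      have := h6 i
      have := h6 0
      simp only [hQ]
      positivity
    have e1 : δ ≤ rho a b 0 t - rho a b i t := by
      have := h3 i hi
      nlinarith
    have e2 : γ₀ * (c1 * c2 * δ) ≤ -rr m1 m2 a b t * (c1 * c2 * (rho a b 0 t - rho a b i t)) := by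
      apply mul_le_mul (by linarith) _ (by positivity) (by linarith)
      exact mul_le_mul_of_nonneg_left e1 (by positivity)
    have e3 : (c1 * rho a b 0 t + c2) * (c1 * rho a b i t + c2) ≤ K := by
      rw [hK]
      have := h2 0
      have := h2 i
      gcongr
    have e4 : c ≤ -rr m1 m2 a b t * (c1 * c2 * (rho a b 0 t - rho a b i t)) /
        ((c1 * rho a b 0 t + c2) * (c1 * rho a b i t + c2)) := by
      rw [hc]
      apply div_le_div₀ _ e2 (by positivity) e3
      exact (by positivity : 0 ≤ γ₀ * (c1 * c2 * δ)).trans e2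
    have e5 := mul_le_mul_of_nonneg_left e4 hQt.le
    linarith
  have hT : ∀ w > 0, ∀ᶠ t in atTop, c1 * a i t + c2 * b i t ≤ w := by
    intro w hw
    filter_upwards [hQle (w / ((c1 + c2) * M)) (by positivity), hMev, H.pa, H.pb]
      with t h1 h2 h3 h4
    have hT0 : c1 * a 0 t + c2 * b 0 t ≤ (c1 + c2) * M := by
      have e1 : a 0 t ≤ tot a t :=
        Finset.single_le_sum (f := fun j => a j t) (fun j _ => (h3 j).le) (Finset.mem_univ 0)
      have e2 : b 0 t ≤ tot b t :=
        Finset.single_le_sum (f := fun j => b j t) (fun j _ => (h4 j).le) (Finset.mem_univ 0)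
      have e3 : c1 * a 0 t ≤ c1 * M := mul_le_mul_of_nonneg_left (e1.trans h2.1) hc1.le
      have e4 : c2 * b 0 t ≤ c2 * M := mul_le_mul_of_nonneg_left (e2.trans h2.2) hc2.le
      linarith
    have hT0' : 0 < c1 * a 0 t + c2 * b 0 t := by
      have := h3 0
      have := h4 0
      positivity
    have h5 := (div_le_iff₀ hT0').mp h1
    have h6 : w / ((c1 + c2) * M) * (c1 * a 0 t + c2 * b 0 t) ≤
        w / ((c1 + c2) * M) * ((c1 + c2) * M) :=
      mul_le_mul_of_nonneg_left hT0 (by positivity)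
    have h7 : w / ((c1 + c2) * M) * ((c1 + c2) * M) = w := by field_simp
    linarith
  constructor
  · rw [Metric.tendsto_atTop']
    intro ε hε
    obtain ⟨N, hN⟩ := eventually_atTop.mp ((hT (c1 * ε / 2) (by positivity)).and
      (H.pa.and H.pb))
    refine ⟨N, fun t ht => ?_⟩
    obtain ⟨h1, h2, h3⟩ := hN t ht.le
    rw [Real.dist_eq, sub_zero, abs_of_pos (h2 i)]
    have h4 := mul_pos hc2 (h3 i)
    have h5 : c1 * a i t ≤ c1 * (ε / 2) := by linarith
    have h6 := le_of_mul_le_mul_left h5 hc1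
    linarith
  · rw [Metric.tendsto_atTop']
    intro ε hε
    obtain ⟨N, hN⟩ := eventually_atTop.mp ((hT (c2 * ε / 2) (by positivity)).and
      (H.pa.and H.pb))
    refine ⟨N, fun t ht => ?_⟩
    obtain ⟨h1, h2, h3⟩ := hN t ht.le
    rw [Real.dist_eq, sub_zero, abs_of_pos (h3 i)]
    have h4 := mul_pos hc1 (h2 i)
    have h5 : c2 * b i t ≤ c2 * (ε / 2) := by linarith
    have h6 := le_of_mul_le_mul_left h5 hc2
    linarith

end Late

end Pool.Agent.Lib.MP_4fbe7c_an
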