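import Mathlib
import Pool.Agent.Lib.MP_4fbe7c_an.Order

/-!
Steady state of the slowest species, and convergence to it.
-/

open Filter Topology Set

namespace Pool.Agent.Lib.MP_4fbe7c_an

/-- The entropy-type function. -/
noncomputable def ent (θ u : ℝ) : ℝ := u - θ - θ * Real.log (u / θ)

theorem ent_le {θ u : ℝ} (hθ : 0 < θ) (hu : 0 < u) : ent θ u ≤ (u - θ) ^ 2 / u := by
  have h1 : Real.log (θ / u) ≤ θ / u - 1 := Real.log_le_sub_one_of_pos (by positivity)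
  have h2 : Real.log (u / θ) = -Real.log (θ / u) := by
    rw [← Real.log_inv, inv_div]
  rw [ent, h2]
  have h3 : θ * Real.log (θ / u) ≤ θ * (θ / u - 1) := mul_le_mul_of_nonneg_left h1 hθ.le
  have h4 : (u - θ) ^ 2 / u = u - θ + θ * (θ / u - 1) := by
    field_simp
    ring
  rw [h4]
  linarith

theorem le_ent {θ u : ℝ} (hθ : 0 < θ) (hu : 0 < u) : (u - θ) ^ 2 / (2 * (u + θ)) ≤ ent θ u := by
  have hs : 0 < Real.sqrt (u / θ) := Real.sqrt_pos.mpr (by positivity)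
  have h1 : Real.log (Real.sqrt (u / θ)) ≤ Real.sqrt (u / θ) - 1 :=
    Real.log_le_sub_one_of_pos hs
  have h2 : Real.log (u / θ) = 2 * Real.log (Real.sqrt (u / θ)) := by
    rw [Real.log_sqrt (by positivity)]; ring
  set s := Real.sqrt (u / θ) with hsdef
  have hss : s ^ 2 = u / θ := Real.sq_sqrt (by positivity)
  have hu' : u = θ * s ^ 2 := by rw [hss]; field_simp
  rw [ent, h2]
  have h3 : θ * (2 * Real.log s) ≤ θ * (2 * (s - 1)) :=
    mul_le_mul_of_nonneg_left (by linarith) hθ.le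
  have h4 : (u - θ) ^ 2 / (2 * (u + θ)) ≤ u - θ - θ * (2 * (s - 1)) := by
    rw [div_le_iff₀ (by positivity), hu']
    have e : (θ * s ^ 2 - θ - θ * (2 * (s - 1))) * (2 * (θ * s ^ 2 + θ)) - (θ * s ^ 2 - θ) ^ 2
        = θ ^ 2 * (s - 1) ^ 4 := by ring
    have : 0 ≤ θ ^ 2 * (s - 1) ^ 4 := by positivity
    linarith
  linarith

theorem ent_nonneg {θ u : ℝ} (hθ : 0 < θ) (hu : 0 < u) : 0 ≤ ent θ u :=
  le_trans (by positivity) (le_ent hθ hu)

theorem hasDerivAt_ent {θ : ℝ} {u : ℝ → ℝ} {u' t : ℝ} (hθ : 0 < θ) (hu : 0 < u t)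
    (h : HasDerivAt u u' t) : HasDerivAt (fun t => ent θ (u t)) ((1 - θ / u t) * u') t := by
  have h1 := ((h.div_const θ).log (by positivity)).const_mul θ
  refine ((h.sub_const θ).sub h1).congr_deriv ?_
  field_simp

/-- Steady states of the one-species problem. -/
structure Steady (c1 c2 m1 m2 d θ1 θ2 : ℝ) : Prop where
  p1 : 0 < θ1
  p2 : 0 < θ2
  e1 : d / c1 * (θ2 - θ1) + θ1 * (m1 - θ1) = 0
  e2 : d / c2 * (θ1 - θ2) + θ2 * (m2 - θ2) = 0

theorem steady_unique {c1 c2 m1 m2 d θ1 θ2 φ1 φ2 : ℝ} (hc1 : 0 < c1) (hc2 : 0 < c2)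
    (hd : 0 < d) (h : Steady c1 c2 m1 m2 d θ1 θ2) (h' : Steady c1 c2 m1 m2 d φ1 φ2) :
    φ1 = θ1 ∧ φ2 = θ2 := by
  obtain ⟨p1, p2, e1, e2⟩ := h
  obtain ⟨q1, q2, f1, f2⟩ := h'
  have e1' : d * (θ2 - θ1) + c1 * θ1 * (m1 - θ1) = 0 := by
    have : c1 * (d / c1 * (θ2 - θ1) + θ1 * (m1 - θ1)) = d * (θ2 - θ1) + c1 * θ1 * (m1 - θ1) := by
      field_simp
    rw [← this, e1, mul_zero]
  have e2' : d * (θ1 - θ2) + c2 * θ2 * (m2 - θ2) = 0 := by
    have : c2 * (d / c2 * (θ1 - θ2) + θ2 * (m2 - θ2)) = d * (θ1 - θ2) + c2 * θ2 * (m2 - θ2) := by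
      field_simp
    rw [← this, e2, mul_zero]
  have f1' : d * (φ2 - φ1) + c1 * φ1 * (m1 - φ1) = 0 := by
    have : c1 * (d / c1 * (φ2 - φ1) + φ1 * (m1 - φ1)) = d * (φ2 - φ1) + c1 * φ1 * (m1 - φ1) := by
      field_simp
    rw [← this, f1, mul_zero]
  have f2' : d * (φ1 - φ2) + c2 * φ2 * (m2 - φ2) = 0 := by
    have : c2 * (d / c2 * (φ1 - φ2) + φ2 * (m2 - φ2)) = d * (φ1 - φ2) + c2 * φ2 * (m2 - φ2) := by
      field_simp
    rw [← this, f2, mul_zero]
  have g1 : d * (θ2 * φ1 - φ2 * θ1) + c1 * θ1 * φ1 * (φ1 - θ1) = 0 := by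
    linear_combination φ1 * e1' - θ1 * f1'
  have g2 : d * (θ1 * φ2 - φ1 * θ2) + c2 * θ2 * φ2 * (φ2 - θ2) = 0 := by
    linear_combination φ2 * e2' - θ2 * f2'
  have g3 : c1 * θ1 * φ1 * (φ1 - θ1) + c2 * θ2 * φ2 * (φ2 - θ2) = 0 := by
    linear_combination g1 + g2
  have hA : 0 < c1 * θ1 * φ1 := by positivity
  have hB : 0 < c2 * θ2 * φ2 := by positivity
  rcases lt_trichotomy φ1 θ1 with h | h | h
  · exfalso
    have h1 : c1 * θ1 * φ1 * (φ1 - θ1) < 0 := mul_neg_of_pos_of_neg hA (by linarith)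
    have h2 : 0 < φ2 - θ2 := by
      by_contra h3
      push Not at h3
      have := mul_nonpos_of_nonneg_of_nonpos hB.le h3
      linarith
    have h3 : θ2 * φ1 < φ2 * θ1 := mul_lt_mul'' (by linarith) h p2.le q1.le
    have h4 : d * (θ2 * φ1 - φ2 * θ1) < 0 := mul_neg_of_pos_of_neg hd (by linarith)
    linarith
  · refine ⟨h, ?_⟩
    rw [h, sub_self, mul_zero, zero_add] at g3
    rcases mul_eq_zero.mp g3 with h1 | h1
    · exact absurd h1 hB.ne'
    · linarith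
  · exfalso
    have h1 : 0 < c1 * θ1 * φ1 * (φ1 - θ1) := mul_pos hA (by linarith)
    have h2 : φ2 - θ2 < 0 := by
      by_contra h3
      push Not at h3
      have := mul_nonneg hB.le h3
      linarith
    have h3 : φ2 * θ1 < θ2 * φ1 := mul_lt_mul'' (by linarith) h q2.le p1.le
    have h4 : 0 < d * (θ2 * φ1 - φ2 * θ1) := mul_pos hd (by linarith)
    linarith

theorem steady_exists {c1 c2 m1 m2 d : ℝ} (hc1 : 0 < c1) (hc2 : 0 < c2) (hm : m2 < m1)
    (hmean : 0 ≤ c1 * m1 + c2 * m2) (hd : 0 < d) :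
    ∃ θ1 θ2, Steady c1 c2 m1 m2 d θ1 θ2 := by
  have hm1 : 0 < m1 := by
    by_contra hcon
    push Not at hcon
    have h5 : m2 < 0 := by linarith
    have h6 : c2 * m2 < 0 := mul_neg_of_pos_of_neg hc2 h5
    have h7 : c1 * m1 ≤ 0 := mul_nonpos_of_nonneg_of_nonpos hc1.le hcon
    linarith
  set h : ℝ → ℝ := fun θ => 1 - c1 * (m1 - θ) / d with hh
  set F : ℝ → ℝ := fun θ => c1 * (m1 - θ) + c2 * h θ * (m2 - θ * h θ) with hF
  have hFc : Continuous F := by
    rw [hF, hh]; fun_prop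
  set lo : ℝ := max 0 (m1 - d / c1) with hlo
  have hlo0 : 0 ≤ lo := le_max_left _ _
  have hlo1 : lo < m1 := by
    rw [hlo, max_lt_iff]
    refine ⟨hm1, ?_⟩
    have : 0 < d / c1 := by positivity
    linarith
  have hFm : F m1 < 0 := by
    simp only [hF, hh, sub_self, mul_zero, zero_div, sub_zero, mul_one, zero_add]
    exact mul_neg_of_pos_of_neg hc2 (by linarith)
  have hFlo : 0 < F lo := by
    rcases le_or_gt (m1 - d / c1) 0 with h1 | h1
    · have h2 : lo = 0 := max_eq_left h1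
      rw [h2]
      simp only [hF, hh, sub_zero, zero_mul]
      have h3 : c1 * m1 / d ≤ 1 := by
        rw [div_le_one hd]
        have : m1 ≤ d / c1 := by linarith
        have := (le_div_iff₀ hc1).mp this
        linarith
      have h4 : 0 < c1 * m1 / d := by positivity
      have h5 : 0 < c1 * m1 := by positivity
      rcases le_or_gt 0 m2 with h6 | h6
      · have : 0 ≤ c2 * (1 - c1 * m1 / d) * m2 :=
          mul_nonneg (mul_nonneg hc2.le (by linarith)) h6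
        linarith
      · have h7 : c2 * m2 < 0 := mul_neg_of_pos_of_neg hc2 h6
        have h8 : c1 * m1 / d * (c2 * m2) < 0 := mul_neg_of_pos_of_neg h4 h7
        have e : c1 * m1 + c2 * (1 - c1 * m1 / d) * m2 =
          (c1 * m1 + c2 * m2) - c1 * m1 / d * (c2 * m2) := by ring
        rw [e]
        linarith
    · have h2 : lo = m1 - d / c1 := max_eq_right h1.le
      rw [h2]
      have h3 : h (m1 - d / c1) = 0 := by
        simp only [hh]
        field_simp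
        ring
      simp only [hF]
      rw [h3]
      have : 0 < c1 * (d / c1) := by positivity
      have e : c1 * (m1 - (m1 - d / c1)) + c2 * 0 * (m2 - (m1 - d / c1) * 0) = c1 * (d / c1) := by
        ring
      rw [e]
      exact this
  obtain ⟨θ, hθ, hFθ⟩ : ∃ θ ∈ Ioo lo m1, F θ = 0 :=
    intermediate_value_Ioo' hlo1.le hFc.continuousOn ⟨hFm, hFlo⟩
  have hθpos : 0 < θ := lt_of_le_of_lt hlo0 hθ.1
  have hhθ : 0 < h θ := by
    have h1 : m1 - d / c1 < θ := lt_of_le_of_lt (le_max_right _ _) hθ.1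
    simp only [hh]
    have h2 : c1 * (m1 - θ) / d < 1 := by
      rw [div_lt_one hd]
      have : m1 - θ < d / c1 := by linarith
      have := (lt_div_iff₀ hc1).mp this
      linarith
    linarith
  refine ⟨θ, θ * h θ, hθpos, by positivity, ?_, ?_⟩
  · simp only [hh]
    field_simp
    ring
  · have e1 : d / c2 * (θ - θ * h θ) + θ * h θ * (m2 - θ * h θ) = θ / c2 * F θ := by
      simp only [hF, hh]
      field_simp
      ring
    rw [e1, hFθ, mul_zero]

variable {n : ℕ} {c1 c2 m1 m2 : ℝ} {d : Fin (n + 1) → ℝ} {a b : Fin (n + 1) → ℝ → ℝ}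

/-- The dissipation identity. -/
theorem dissip {c1 c2 m1 m2 d θ1 θ2 u v A B : ℝ} (hc1 : 0 < c1) (hc2 : 0 < c2)
    (h : Steady c1 c2 m1 m2 d θ1 θ2) (hu : 0 < u) (hv : 0 < v) :
    c1 * θ1 * ((1 - θ1 / u) * (d / c1 * (v - u) + u * (m1 - A))) +
    c2 * θ2 * ((1 - θ2 / v) * (d / c2 * (u - v) + v * (m2 - B))) =
    -(c1 * θ1 * ((u - θ1) * (A - θ1)) + c2 * θ2 * ((v - θ2) * (B - θ2))) -
      d * (θ1 * v - θ2 * u) ^ 2 / (u * v) := by
  obtain ⟨p1, p2, e1, e2⟩ := h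
  have h1 : m1 = θ1 - d * (θ2 - θ1) / (c1 * θ1) := by
    field_simp at e1 ⊢
    linarith
  have h2 : m2 = θ2 - d * (θ1 - θ2) / (c2 * θ2) := by
    field_simp at e2 ⊢
    linarith
  rw [h1, h2]
  field_simp
  ring

theorem tot_succ (a : Fin (n + 1) → ℝ → ℝ) (t : ℝ) :
    tot a t = a 0 t + ∑ i : Fin n, a i.succ t := by
  rw [tot, Fin.sum_univ_succ]

namespace Late

variable (H : Late n c1 c2 m1 m2 d a b)
include H

theorem rest_a : Tendsto (fun t => ∑ i : Fin n, a i.succ t) atTop (𝓝 0) := by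
  have := tendsto_finsetSum (f := fun (i : Fin n) t => a i.succ t) (Finset.univ)
    (fun i _ => (H.extinct i.succ (Fin.succ_ne_zero i)).1)
  simpa using this

theorem rest_b : Tendsto (fun t => ∑ i : Fin n, b i.succ t) atTop (𝓝 0) := by
  have := tendsto_finsetSum (f := fun (i : Fin n) t => b i.succ t) (Finset.univ)
    (fun i _ => (H.extinct i.succ (Fin.succ_ne_zero i)).2)
  simpa using this

theorem low0 : ∃ u₀ > 0, ∀ᶠ t in atTop, u₀ ≤ a 0 t ∧ u₀ ≤ b 0 t := by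
  have hc1 := H.hc1
  have hc2 := H.hc2
  obtain ⟨s, hs, hsev⟩ := H.persist
  obtain ⟨R, hR, hRev⟩ := H.rho_le
  have h1 : Tendsto (fun t => c1 * (∑ i : Fin n, a i.succ t) + c2 * ∑ i : Fin n, b i.succ t)
      atTop (𝓝 (c1 * 0 + c2 * 0)) := (H.rest_a.const_mul c1).add (H.rest_b.const_mul c2)
  rw [mul_zero, mul_zero, add_zero] at h1
  have h2 := h1.eventually (gt_mem_nhds (show (0 : ℝ) < s / 2 by positivity))
  refine ⟨s / 2 / (c1 * R + c2), by positivity, ?_⟩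
  filter_upwards [hsev, hRev, H.rho_gt, h2, H.pb] with t h3 h4 h5 h6 h7
  rw [tot_succ, tot_succ] at h3
  have hb := h7 0
  have h8 : a 0 t ≤ R * b 0 t := (div_le_iff₀ hb).mp (h4 0)
  have h9 : b 0 t < a 0 t := by
    have := (lt_div_iff₀ hb).mp (h5 0)
    linarith
  have h10 : s / 2 / (c1 * R + c2) ≤ b 0 t := by
    rw [div_le_iff₀ (by positivity)]
    have : c1 * a 0 t ≤ c1 * (R * b 0 t) := mul_le_mul_of_nonneg_left h8 hc1.le
    nlinarith
  exact ⟨h10.trans h9.le, h10⟩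

/-- Convergence of the slowest species to its steady state. -/
theorem conv {θ1 θ2 : ℝ} (h : Steady c1 c2 m1 m2 (d 0) θ1 θ2) :
    Tendsto (a 0) atTop (𝓝 θ1) ∧ Tendsto (b 0) atTop (𝓝 θ2) := by
  have hc1 := H.hc1
  have hc2 := H.hc2
  have hd0 := H.hd0
  have p1 := h.p1
  have p2 := h.p2
  obtain ⟨M, hM, hMev⟩ := H.upper
  obtain ⟨u₀, hu₀, hu₀ev⟩ := H.low0
  set x : ℝ → ℝ := fun t => c1 * θ1 * ent θ1 (a 0 t) + c2 * θ2 * ent θ2 (b 0 t) with hx
  set e : ℝ → ℝ := fun t => c1 * θ1 * (M + θ1) * (∑ i : Fin n, a i.succ t) +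
    c2 * θ2 * (M + θ2) * (∑ i : Fin n, b i.succ t) with he
  have he0 : Tendsto e atTop (𝓝 0) := by
    have := (H.rest_a.const_mul (c1 * θ1 * (M + θ1))).add
      (H.rest_b.const_mul (c2 * θ2 * (M + θ2)))
    simpa using this
  have hxd : ∀ᶠ t in atTop, HasDerivAt x
      (c1 * θ1 * ((1 - θ1 / a 0 t) * (d 0 / c1 * (b 0 t - a 0 t) + a 0 t * (m1 - tot a t))) +
      c2 * θ2 * ((1 - θ2 / b 0 t) * (d 0 / c2 * (a 0 t - b 0 t) + b 0 t * (m2 - tot b t)))) t := by
    filter_upwards [H.da, H.db, H.pa, H.pb] with t h1 h2 h3 h4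
    exact ((hasDerivAt_ent p1 (h3 0) (h1 0)).const_mul _).add
      ((hasDerivAt_ent p2 (h4 0) (h2 0)).const_mul _)
  have hxle : ∀ w > 0, ∀ᶠ t in atTop, x t ≤ w := by
    intro w hw
    refine ev_decay hu₀ hw hxd he0 ?_
    filter_upwards [H.pa, H.pb, hMev, hu₀ev] with t h3 h4 h5 h6
    rw [dissip hc1 hc2 h (h3 0) (h4 0)]
    have hA := tot_succ a t
    have hB := tot_succ b t
    have hsa : 0 ≤ ∑ i : Fin n, a i.succ t := Finset.sum_nonneg fun i _ => (h3 _).le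
    have hsb : 0 ≤ ∑ i : Fin n, b i.succ t := Finset.sum_nonneg fun i _ => (h4 _).le
    have ha := h3 0
    have hb := h4 0
    simp only [hx, he]
    set sa := ∑ i : Fin n, a i.succ t
    set sb := ∑ i : Fin n, b i.succ t
    set u := a 0 t
    set v := b 0 t
    rw [hA, hB] at h5 ⊢
    have hdiss : 0 ≤ d 0 * (θ1 * v - θ2 * u) ^ 2 / (u * v) := by positivity
    have k1 : u₀ * ent θ1 u ≤ (u - θ1) ^ 2 := by
      have e1 := ent_le p1 ha
      have e2 : u₀ * ent θ1 u ≤ u * ent θ1 u :=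
        mul_le_mul_of_nonneg_right h6.1 (ent_nonneg p1 ha)
      have e3 : u * ent θ1 u ≤ u * ((u - θ1) ^ 2 / u) := mul_le_mul_of_nonneg_left e1 ha.le
      have e4 : u * ((u - θ1) ^ 2 / u) = (u - θ1) ^ 2 := by field_simp
      linarith
    have k2 : u₀ * ent θ2 v ≤ (v - θ2) ^ 2 := by
      have e1 := ent_le p2 hb
      have e2 : u₀ * ent θ2 v ≤ v * ent θ2 v :=
        mul_le_mul_of_nonneg_right h6.2 (ent_nonneg p2 hb)
      have e3 : v * ent θ2 v ≤ v * ((v - θ2) ^ 2 / v) := mul_le_mul_of_nonneg_left e1 hb.le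
      have e4 : v * ((v - θ2) ^ 2 / v) = (v - θ2) ^ 2 := by field_simp
      linarith
    have k3 : -((u - θ1) * sa) ≤ (M + θ1) * sa := by
      have : (θ1 - u) * sa ≤ (M + θ1) * sa := mul_le_mul_of_nonneg_right (by linarith) hsa
      linarith
    have k4 : -((v - θ2) * sb) ≤ (M + θ2) * sb := by
      have : (θ2 - v) * sb ≤ (M + θ2) * sb := mul_le_mul_of_nonneg_right (by linarith) hsb
      linarith
    have k5 : c1 * θ1 * (u₀ * ent θ1 u - (M + θ1) * sa) ≤
        c1 * θ1 * ((u - θ1) * (u + sa - θ1)) :=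
      mul_le_mul_of_nonneg_left (by nlinarith) (by positivity)
    have k6 : c2 * θ2 * (u₀ * ent θ2 v - (M + θ2) * sb) ≤
        c2 * θ2 * ((v - θ2) * (v + sb - θ2)) :=
      mul_le_mul_of_nonneg_left (by nlinarith) (by positivity)
    linarith
  have hsq : ∀ ε > 0, ∀ᶠ t in atTop, |a 0 t - θ1| < ε ∧ |b 0 t - θ2| < ε := by
    intro ε hε
    filter_upwards [hxle (c1 * θ1 * (ε ^ 2 / (4 * (M + θ1)))) (by positivity),
      hxle (c2 * θ2 * (ε ^ 2 / (4 * (M + θ2)))) (by positivity), H.pa, H.pb, hMev]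
      with t h1 h2 h3 h4 h5
    have ha := h3 0
    have hb := h4 0
    have haM : a 0 t ≤ M := by
      refine le_trans ?_ h5.1
      exact Finset.single_le_sum (f := fun j => a j t) (fun j _ => (h3 j).le)
        (Finset.mem_univ 0)
    have hbM : b 0 t ≤ M := by
      refine le_trans ?_ h5.2
      exact Finset.single_le_sum (f := fun j => b j t) (fun j _ => (h4 j).le)
        (Finset.mem_univ 0)
    have n1 : 0 ≤ c1 * θ1 * ent θ1 (a 0 t) := mul_nonneg (by positivity) (ent_nonneg p1 ha)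
    have n2 : 0 ≤ c2 * θ2 * ent θ2 (b 0 t) := mul_nonneg (by positivity) (ent_nonneg p2 hb)
    simp only [hx] at h1 h2
    have q1 : ent θ1 (a 0 t) ≤ ε ^ 2 / (4 * (M + θ1)) :=
      le_of_mul_le_mul_left (by linarith : c1 * θ1 * ent θ1 (a 0 t) ≤
        c1 * θ1 * (ε ^ 2 / (4 * (M + θ1)))) (by positivity)
    have q2 : ent θ2 (b 0 t) ≤ ε ^ 2 / (4 * (M + θ2)) :=
      le_of_mul_le_mul_left (by linarith : c2 * θ2 * ent θ2 (b 0 t) ≤
        c2 * θ2 * (ε ^ 2 / (4 * (M + θ2)))) (by positivity)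
    constructor
    · have r1 := (le_ent p1 ha).trans q1
      rw [div_le_div_iff₀ (by positivity) (by positivity)] at r1
      have r2 : ε ^ 2 * (2 * (a 0 t + θ1)) ≤ ε ^ 2 * (2 * (M + θ1)) :=
        mul_le_mul_of_nonneg_left (by linarith) (by positivity)
      have r3 : (M + θ1) * (2 * (a 0 t - θ1) ^ 2) ≤ (M + θ1) * ε ^ 2 := by nlinarith
      have r4 : 2 * (a 0 t - θ1) ^ 2 ≤ ε ^ 2 := le_of_mul_le_mul_left r3 (by positivity)
      apply abs_lt_of_sq_lt_sq _ hε.le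
      have : 0 < ε ^ 2 := by positivity
      nlinarith
    · have r1 := (le_ent p2 hb).trans q2
      rw [div_le_div_iff₀ (by positivity) (by positivity)] at r1
      have r2 : ε ^ 2 * (2 * (b 0 t + θ2)) ≤ ε ^ 2 * (2 * (M + θ2)) :=
        mul_le_mul_of_nonneg_left (by linarith) (by positivity)
      have r3 : (M + θ2) * (2 * (b 0 t - θ2) ^ 2) ≤ (M + θ2) * ε ^ 2 := by nlinarith
      have r4 : 2 * (b 0 t - θ2) ^ 2 ≤ ε ^ 2 := le_of_mul_le_mul_left r3 (by positivity)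
      apply abs_lt_of_sq_lt_sq _ hε.le
      have : 0 < ε ^ 2 := by positivity
      nlinarith
  constructor
  · rw [Metric.tendsto_nhds]
    intro ε hε
    exact (hsq ε hε).mono fun t ht => ht.1
  · rw [Metric.tendsto_nhds]
    intro ε hε
    exact (hsq ε hε).mono fun t ht => ht.2

end Late

end Pool.Agent.Lib.MP_4fbe7c_an
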