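import Mathlib
import Pool.Agent.Lib.MP_4fbe7c_an.One

/-!
Lyapunov stability of the steady state of the slowest species, and positivity of solutions.
-/

open Filter Topology Set

namespace Pool.Agent.Lib.MP_4fbe7c_an

/-- The steady state lies strictly between the two resources. -/
theorem steady_between {c1 c2 m1 m2 d θ1 θ2 : ℝ} (hc1 : 0 < c1) (hc2 : 0 < c2) (hm : m2 < m1)
    (hd : 0 < d) (h : Steady c1 c2 m1 m2 d θ1 θ2) : θ1 < m1 ∧ m2 < θ2 := by
  obtain ⟨p1, p2, e1, e2⟩ := h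
  have hlt : θ2 < θ1 := by
    by_contra hcon
    push Not at hcon
    have h1 : 0 ≤ d / c1 * (θ2 - θ1) := mul_nonneg (by positivity) (by linarith)
    have h2 : d / c2 * (θ1 - θ2) ≤ 0 :=
      mul_nonpos_of_nonneg_of_nonpos (by positivity) (by linarith)
    have h3 : m1 - θ1 ≤ 0 := by
      by_contra h4
      push Not at h4
      have := mul_pos p1 h4
      linarith
    have h4 : 0 ≤ m2 - θ2 := by
      by_contra h5
      push Not at h5
      have := mul_neg_of_pos_of_neg p2 h5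
      linarith
    linarith
  constructor
  · by_contra hcon
    push Not at hcon
    have h1 : d / c1 * (θ2 - θ1) < 0 := mul_neg_of_pos_of_neg (by positivity) (by linarith)
    have h2 : θ1 * (m1 - θ1) ≤ 0 := mul_nonpos_of_nonneg_of_nonpos p1.le (by linarith)
    linarith
  · by_contra hcon
    push Not at hcon
    have h1 : 0 < d / c2 * (θ1 - θ2) := mul_pos (by positivity) (by linarith)
    have h2 : 0 ≤ θ2 * (m2 - θ2) := mul_nonneg p2.le (by linarith)
    linarith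

/-- Weights making faster species decay near the steady state of the slowest one. -/
theorem steady_weight {c1 c2 m1 m2 d θ1 θ2 : ℝ} (hc1 : 0 < c1) (hc2 : 0 < c2) (hm : m2 < m1)
    (hd : 0 < d) (h : Steady c1 c2 m1 m2 d θ1 θ2) {D : ℝ} (hD : d < D) :
    ∃ x : ℝ, 0 < x ∧ x < 1 ∧ c1 * (m1 - θ1) - (1 - x) * D < 0 ∧
      (1 - x) * D + c2 * x * (m2 - θ2) < 0 := by
  obtain ⟨hb1, hb2⟩ := steady_between hc1 hc2 hm hd h
  obtain ⟨p1, p2, e1, e2⟩ := h
  set G1 : ℝ := c1 * (m1 - θ1) with hG1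
  set G2 : ℝ := c2 * (θ2 - m2) with hG2
  have hG1pos : 0 < G1 := mul_pos hc1 (by linarith)
  have hG2pos : 0 < G2 := mul_pos hc2 (by linarith)
  have f1 : d * (θ1 - θ2) = G1 * θ1 := by
    rw [hG1]
    field_simp at e1
    linarith
  have f2 : d * (θ1 - θ2) = G2 * θ2 := by
    rw [hG2]
    field_simp at e2
    linarith
  have hid : d * (G2 - G1) = G1 * G2 := by
    have h1 : θ1 * θ2 * (d * (G2 - G1)) = θ1 * θ2 * (G1 * G2) := by
      have h2 : θ1 * θ2 * (d * (G2 - G1)) = d * θ1 * (G2 * θ2) - d * θ2 * (G1 * θ1) := by ring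
      rw [h2, ← f1, ← f2]
      have h3 : θ1 * θ2 * (G1 * G2) = (G1 * θ1) * (G2 * θ2) := by ring
      rw [h3, ← f1, ← f2]
      ring
    exact mul_left_cancel₀ (by positivity) h1
  have hG : 0 < G2 - G1 := by
    have h1 : 0 < d * (G2 - G1) := by rw [hid]; positivity
    exact (mul_pos_iff_of_pos_left hd).mp h1
  have hDpos : 0 < D := lt_trans hd hD
  have hlt : G1 / D < G2 / (D + G2) := by
    rw [div_lt_div_iff₀ hDpos (by positivity)]
    have : d * (G2 - G1) < D * (G2 - G1) := mul_lt_mul_of_pos_right hD hG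
    nlinarith
  obtain ⟨y, hy1, hy2⟩ := exists_between hlt
  have hy0 : 0 < y := lt_trans (by positivity) hy1
  have hy1' : y < 1 := by
    refine lt_trans hy2 ?_
    rw [div_lt_one (by positivity)]
    linarith
  refine ⟨1 - y, by linarith, by linarith, ?_, ?_⟩
  · have := (div_lt_iff₀ hDpos).mp hy1
    have e : (1 - (1 - y)) * D = y * D := by ring
    rw [e]; linarith
  · have := (lt_div_iff₀ (by positivity)).mp hy2
    have e : (1 - (1 - y)) * D + c2 * (1 - y) * (m2 - θ2) = y * (D + G2) - G2 := by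
      rw [hG2]; ring
    rw [e]; linarith

/-- Lyapunov stability, in terms of the two coordinates of each species. -/
theorem stable {n : ℕ} {c1 c2 m1 m2 θ1 θ2 : ℝ} {d : Fin (n + 1) → ℝ}
    (hc1 : 0 < c1) (hc2 : 0 < c2) (hm : m2 < m1) (hd0 : 0 < d 0) (hd : StrictMono d)
    (h : Steady c1 c2 m1 m2 (d 0) θ1 θ2) {ε : ℝ} (hε : 0 < ε) :
    ∃ δ > 0, ∀ a b : Fin (n + 1) → ℝ → ℝ,
      (∀ i, ContinuousOn (a i) (Ici 0)) → (∀ i, ContinuousOn (b i) (Ici 0)) →
      (∀ t > 0, ∀ i,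
        HasDerivAt (a i) (d i / c1 * (b i t - a i t) + a i t * (m1 - tot a t)) t) →
      (∀ t > 0, ∀ i,
        HasDerivAt (b i) (d i / c2 * (a i t - b i t) + b i t * (m2 - tot b t)) t) →
      (∀ t ≥ 0, ∀ i, 0 ≤ a i t) → (∀ t ≥ 0, ∀ i, 0 ≤ b i t) →
      |a 0 0 - θ1| < δ → |b 0 0 - θ2| < δ →
      (∀ i : Fin n, a i.succ 0 < δ) → (∀ i : Fin n, b i.succ 0 < δ) →
      ∀ t ≥ 0, (|a 0 t - θ1| < ε ∧ |b 0 t - θ2| < ε) ∧
        ((∀ i : Fin n, a i.succ t < ε) ∧ ∀ i : Fin n, b i.succ t < ε) := by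
  have p1 := h.p1
  have p2 := h.p2
  have hw : ∀ i : Fin n, ∃ x : ℝ, 0 < x ∧ x < 1 ∧ c1 * (m1 - θ1) - (1 - x) * d i.succ < 0 ∧
      (1 - x) * d i.succ + c2 * x * (m2 - θ2) < 0 := fun i =>
    steady_weight hc1 hc2 hm hd0 h (hd (Fin.succ_pos i))
  choose x hx0 hx1 hx2 hx3 using hw
  -- uniform rate
  obtain ⟨η, hη, hη1, hη2, hη3⟩ : ∃ η > 0,
      (∀ i, c1 * (m1 - θ1) - (1 - x i) * d i.succ ≤ -η) ∧
      (∀ i, (1 - x i) * d i.succ + c2 * x i * (m2 - θ2) ≤ -η) ∧ ∀ i, η ≤ x i := by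
    rcases isEmpty_or_nonempty (Fin n) with he | hne
    · exact ⟨1, one_pos, fun i => he.elim i, fun i => he.elim i, fun i => he.elim i⟩
    · obtain ⟨i, hi⟩ := Finite.exists_max fun i : Fin n => c1 * (m1 - θ1) - (1 - x i) * d i.succ
      obtain ⟨j, hj⟩ := Finite.exists_max fun i : Fin n =>
        (1 - x i) * d i.succ + c2 * x i * (m2 - θ2)
      obtain ⟨k, hk⟩ := Finite.exists_min x
      refine ⟨min (-(c1 * (m1 - θ1) - (1 - x i) * d i.succ))
        (min (-((1 - x j) * d j.succ + c2 * x j * (m2 - θ2))) (x k)), ?_, ?_, ?_, ?_⟩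
      · exact lt_min (by linarith [hx2 i]) (lt_min (by linarith [hx3 j]) (hx0 k))
      · intro l
        have h1 := hi l
        have h2 := min_le_left (-(c1 * (m1 - θ1) - (1 - x i) * d i.succ))
          (min (-((1 - x j) * d j.succ + c2 * x j * (m2 - θ2))) (x k))
        linarith
      · intro l
        have h1 := hj l
        have h2 := (min_le_right (-(c1 * (m1 - θ1) - (1 - x i) * d i.succ))
          (min (-((1 - x j) * d j.succ + c2 * x j * (m2 - θ2))) (x k))).trans (min_le_left _ _)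
        linarith
      · intro l
        exact ((min_le_right _ _).trans (min_le_right _ _)).trans (hk l)
  -- the radius
  set ρ : ℝ := min (min ε (min (θ1 / 2) (θ2 / 2)))
    (min (η / (c1 * (1 + θ1))) (η / (c2 * (1 + θ2)))) with hρ
  have hρpos : 0 < ρ := lt_min (lt_min hε (lt_min (by positivity) (by positivity)))
    (lt_min (by positivity) (by positivity))
  have hρε : ρ ≤ ε := (min_le_left _ _).trans (min_le_left _ _)
  have hρ1 : ρ ≤ θ1 / 2 := ((min_le_left _ _).trans (min_le_right _ _)).trans (min_le_left _ _)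
  have hρ2 : ρ ≤ θ2 / 2 := ((min_le_left _ _).trans (min_le_right _ _)).trans (min_le_right _ _)
  have hρ3 : ρ * (c1 * (1 + θ1)) ≤ η :=
    (le_div_iff₀ (by positivity)).mp ((min_le_right _ _).trans (min_le_left _ _))
  have hρ4 : ρ * (c2 * (1 + θ2)) ≤ η :=
    (le_div_iff₀ (by positivity)).mp ((min_le_right _ _).trans (min_le_right _ _))
  -- the level
  set l : ℝ := min (min (c1 * θ1 * (ρ ^ 2 / (2 * (2 * θ1 + ρ))))
    (c2 * θ2 * (ρ ^ 2 / (2 * (2 * θ2 + ρ))))) (min (c1 * ρ) (c2 * η * ρ)) with hl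
  have hlpos : 0 < l := lt_min (lt_min (by positivity) (by positivity))
    (lt_min (by positivity) (by positivity))
  have hl1 : l ≤ c1 * θ1 * (ρ ^ 2 / (2 * (2 * θ1 + ρ))) :=
    (min_le_left _ _).trans (min_le_left _ _)
  have hl2 : l ≤ c2 * θ2 * (ρ ^ 2 / (2 * (2 * θ2 + ρ))) :=
    (min_le_left _ _).trans (min_le_right _ _)
  have hl3 : l ≤ c1 * ρ := (min_le_right _ _).trans (min_le_left _ _)
  have hl4 : l ≤ c2 * η * ρ := (min_le_right _ _).trans (min_le_right _ _)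
  set δ : ℝ := min (min 1 ρ) (l / ((c1 + c2) * (n + 3))) with hδ
  have hn3 : (0 : ℝ) < n + 3 := by positivity
  have hδpos : 0 < δ := lt_min (lt_min one_pos hρpos) (by positivity)
  have hδ1 : δ ≤ 1 := (min_le_left _ _).trans (min_le_left _ _)
  have hδρ : δ ≤ ρ := (min_le_left _ _).trans (min_le_right _ _)
  have hδl : δ * ((c1 + c2) * (n + 3)) ≤ l :=
    (le_div_iff₀ (by positivity)).mp (min_le_right _ _)
  refine ⟨δ, hδpos, ?_⟩
  intro a b hac hbc hda hdb ha hb i1 i2 i3 i4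
  -- the Lyapunov function
  set L : ℝ → ℝ := fun t => c1 * θ1 * ent θ1 (a 0 t) + c2 * θ2 * ent θ2 (b 0 t) +
    ∑ i : Fin n, (c1 * a i.succ t + c2 * x i * b i.succ t) with hL
  set good : ℝ → Prop := fun t => (|a 0 t - θ1| < ρ ∧ |b 0 t - θ2| < ρ) ∧
    ((∀ i : Fin n, a i.succ t < ρ) ∧ ∀ i : Fin n, b i.succ t < ρ) with hgood
  suffices hall : ∀ t ≥ 0, good t by
    intro t ht
    obtain ⟨⟨g1, g2⟩, g3, g4⟩ := hall t ht
    exact ⟨⟨g1.trans_le hρε, g2.trans_le hρε⟩, fun i => (g3 i).trans_le hρε,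
      fun i => (g4 i).trans_le hρε⟩
  by_contra hcon
  push Not at hcon
  obtain ⟨t₁, ht₁, hbad₁⟩ := hcon
  -- closedness of the bad set
  set S : Set ℝ := ({t ∈ Ici (0 : ℝ) | ρ ≤ |a 0 t - θ1|} ∪ {t ∈ Ici (0 : ℝ) | ρ ≤ |b 0 t - θ2|}) ∪
    ((⋃ i : Fin n, {t ∈ Ici (0 : ℝ) | ρ ≤ a i.succ t}) ∪
      ⋃ i : Fin n, {t ∈ Ici (0 : ℝ) | ρ ≤ b i.succ t}) with hS
  have hSmem : ∀ t, t ∈ S ↔ 0 ≤ t ∧ ¬ good t := by
    intro t
    simp only [hS, hgood, mem_union, mem_iUnion, mem_ofPred_eq, mem_Ici, not_and_or, not_forall,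
      not_lt]
    constructor
    · rintro ((⟨h1, h2⟩ | ⟨h1, h2⟩) | (⟨i, h1, h2⟩ | ⟨i, h1, h2⟩))
      · exact ⟨h1, Or.inl (Or.inl h2)⟩
      · exact ⟨h1, Or.inl (Or.inr h2)⟩
      · exact ⟨h1, Or.inr (Or.inl ⟨i, h2⟩)⟩
      · exact ⟨h1, Or.inr (Or.inr ⟨i, h2⟩)⟩
    · rintro ⟨h1, ((h2 | h2) | (⟨i, h2⟩ | ⟨i, h2⟩))⟩
      · exact Or.inl (Or.inl ⟨h1, h2⟩)
      · exact Or.inl (Or.inr ⟨h1, h2⟩)
      · exact Or.inr (Or.inl ⟨i, h1, h2⟩)
      · exact Or.inr (Or.inr ⟨i, h1, h2⟩)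
  have hSc : IsClosed S := by
    refine ((isClosed_Ici.isClosed_le continuousOn_const ?_).union
      (isClosed_Ici.isClosed_le continuousOn_const ?_)).union
      ((isClosed_iUnion_of_finite fun i : Fin n => isClosed_Ici.isClosed_le continuousOn_const
        (hac i.succ)).union
      (isClosed_iUnion_of_finite fun i : Fin n => isClosed_Ici.isClosed_le continuousOn_const
        (hbc i.succ)))
    · exact ((hac 0).sub continuousOn_const).abs
    · exact ((hbc 0).sub continuousOn_const).abs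
  have hSne : S.Nonempty := ⟨t₁, (hSmem t₁).mpr ⟨ht₁, hbad₁⟩⟩
  have hSb : BddBelow S := ⟨0, fun t ht => ((hSmem t).mp ht).1⟩
  set τ := sInf S with hτ
  have hτS : τ ∈ S := hSc.csInf_mem hSne hSb
  obtain ⟨hτ0, hτbad⟩ := (hSmem τ).mp hτS
  have hgood0 : good 0 := ⟨⟨i1.trans_le hδρ, i2.trans_le hδρ⟩, fun i => (i3 i).trans_le hδρ,
    fun i => (i4 i).trans_le hδρ⟩
  have hτpos : 0 < τ := by
    rcases eq_or_lt_of_le hτ0 with h1 | h1
    · rw [← h1] at hτbad
      exact absurd hgood0 hτbad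
    · exact h1
  have hbelow : ∀ t, 0 ≤ t → t < τ → good t := by
    intro t h1 h2
    by_contra h3
    exact absurd (csInf_le hSb ((hSmem t).mpr ⟨h1, h3⟩)) (not_le.mpr h2)
  -- closed good region up to τ
  have hev : ∀ᶠ t in 𝓝[Ico 0 τ] τ, t ∈ Ico 0 τ := self_mem_nhdsWithin
  have hne : (𝓝[Ico 0 τ] τ).NeBot := by
    rw [← mem_closure_iff_nhdsWithin_neBot, closure_Ico hτpos.ne]
    exact ⟨hτpos.le, le_refl _⟩
  have hle1 : |a 0 τ - θ1| ≤ ρ := by
    have h1 : Tendsto (fun t => |a 0 t - θ1|) (𝓝[Ico 0 τ] τ) (𝓝 |a 0 τ - θ1|) :=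
      (((hac 0).sub continuousOn_const).abs τ hτpos.le).mono_left
        (nhdsWithin_mono _ fun t ht => ht.1)
    refine le_of_tendsto h1 ?_
    filter_upwards [hev] with t ht using (hbelow t ht.1 ht.2).1.1.le
  have hle2 : |b 0 τ - θ2| ≤ ρ := by
    have h1 : Tendsto (fun t => |b 0 t - θ2|) (𝓝[Ico 0 τ] τ) (𝓝 |b 0 τ - θ2|) :=
      (((hbc 0).sub continuousOn_const).abs τ hτpos.le).mono_left
        (nhdsWithin_mono _ fun t ht => ht.1)
    refine le_of_tendsto h1 ?_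
    filter_upwards [hev] with t ht using (hbelow t ht.1 ht.2).1.2.le
  have hcl1 : ∀ t ∈ Icc 0 τ, |a 0 t - θ1| ≤ ρ := by
    intro t ht
    rcases eq_or_lt_of_le ht.2 with h1 | h1
    · rw [h1]; exact hle1
    · exact (hbelow t ht.1 h1).1.1.le
  have hcl2 : ∀ t ∈ Icc 0 τ, |b 0 t - θ2| ≤ ρ := by
    intro t ht
    rcases eq_or_lt_of_le ht.2 with h1 | h1
    · rw [h1]; exact hle2
    · exact (hbelow t ht.1 h1).1.2.le
  have hapos : ∀ t ∈ Icc 0 τ, 0 < a 0 t := by
    intro t ht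
    have := (abs_le.mp (hcl1 t ht)).1
    linarith
  have hbpos : ∀ t ∈ Icc 0 τ, 0 < b 0 t := by
    intro t ht
    have := (abs_le.mp (hcl2 t ht)).1
    linarith
  have hsub : Icc 0 τ ⊆ Ici (0 : ℝ) := fun t ht => ht.1
  -- continuity of L
  have hLc : ContinuousOn L (Icc 0 τ) := by
    have h1 : ∀ (θ : ℝ) (u : ℝ → ℝ), 0 < θ → ContinuousOn u (Icc 0 τ) →
        (∀ t ∈ Icc 0 τ, 0 < u t) → ContinuousOn (fun t => ent θ (u t)) (Icc 0 τ) := by
      intro θ u hθ hu hpos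
      refine (hu.sub continuousOn_const).sub (continuousOn_const.mul
        ((hu.div_const θ).log fun t ht => ?_))
      have := hpos t ht
      positivity
    refine ((continuousOn_const.mul (h1 θ1 (a 0) p1 ((hac 0).mono hsub) hapos)).add
      (continuousOn_const.mul (h1 θ2 (b 0) p2 ((hbc 0).mono hsub) hbpos))).add ?_
    refine continuousOn_finsetSum _ fun i _ => ?_
    exact (continuousOn_const.mul ((hac _).mono hsub)).add
      (continuousOn_const.mul ((hbc _).mono hsub))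
  -- derivative of L
  set L' : ℝ → ℝ := fun t =>
    (c1 * θ1 * ((1 - θ1 / a 0 t) * (d 0 / c1 * (b 0 t - a 0 t) + a 0 t * (m1 - tot a t))) +
      c2 * θ2 * ((1 - θ2 / b 0 t) * (d 0 / c2 * (a 0 t - b 0 t) + b 0 t * (m2 - tot b t)))) +
    ∑ i : Fin n, (c1 * (d i.succ / c1 * (b i.succ t - a i.succ t) +
      a i.succ t * (m1 - tot a t)) + c2 * x i * (d i.succ / c2 * (a i.succ t - b i.succ t) +
      b i.succ t * (m2 - tot b t))) with hL'
  have hLd : ∀ t ∈ Ioo 0 τ, HasDerivAt L (L' t) t := by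
    intro t ht
    have htI : t ∈ Icc 0 τ := ⟨ht.1.le, ht.2.le⟩
    have h1 := hda t ht.1
    have h2 := hdb t ht.1
    exact (((hasDerivAt_ent p1 (hapos t htI) (h1 0)).const_mul _).add
      ((hasDerivAt_ent p2 (hbpos t htI) (h2 0)).const_mul _)).add
      (HasDerivAt.fun_sum fun i _ => ((h1 i.succ).const_mul c1).add
        ((h2 i.succ).const_mul (c2 * x i)))
  have hL'le : ∀ t ∈ Ioo 0 τ, L' t ≤ 0 := by
    intro t ht
    have htI : t ∈ Icc 0 τ := ⟨ht.1.le, ht.2.le⟩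
    have hA := tot_succ a t
    have hB := tot_succ b t
    have hai : ∀ i : Fin n, 0 ≤ a i.succ t := fun i => ha t ht.1.le _
    have hbi : ∀ i : Fin n, 0 ≤ b i.succ t := fun i => hb t ht.1.le _
    have hsa : 0 ≤ ∑ i : Fin n, a i.succ t := Finset.sum_nonneg fun i _ => hai i
    have hsb : 0 ≤ ∑ i : Fin n, b i.succ t := Finset.sum_nonneg fun i _ => hbi i
    have hu := hapos t htI
    have hv := hbpos t htI
    have hcu := abs_le.mp (hcl1 t htI)
    have hcv := abs_le.mp (hcl2 t htI)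
    simp only [hL']
    rw [dissip hc1 hc2 h hu hv]
    have hdiss : 0 ≤ d 0 * (θ1 * b 0 t - θ2 * a 0 t) ^ 2 / (a 0 t * b 0 t) := by positivity
    have hsum : ∑ i : Fin n, (c1 * (d i.succ / c1 * (b i.succ t - a i.succ t) +
      a i.succ t * (m1 - tot a t)) + c2 * x i * (d i.succ / c2 * (a i.succ t - b i.succ t) +
      b i.succ t * (m2 - tot b t))) ≤ ∑ i : Fin n, ((-η + c1 * ρ) * a i.succ t +
        (-η + c2 * ρ) * b i.succ t) := by
      refine Finset.sum_le_sum fun i _ => ?_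
      have e0 : c1 * (d i.succ / c1 * (b i.succ t - a i.succ t) +
        a i.succ t * (m1 - tot a t)) + c2 * x i * (d i.succ / c2 * (a i.succ t - b i.succ t) +
        b i.succ t * (m2 - tot b t)) =
        (c1 * (m1 - tot a t) - (1 - x i) * d i.succ) * a i.succ t +
        ((1 - x i) * d i.succ + c2 * x i * (m2 - tot b t)) * b i.succ t := by
        field_simp
        ring
      rw [e0]
      have e1 : c1 * (m1 - tot a t) ≤ c1 * (m1 - θ1) + c1 * ρ := by
        have : c1 * (m1 - tot a t) ≤ c1 * (m1 - θ1 + ρ) :=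
          mul_le_mul_of_nonneg_left (by linarith) hc1.le
        linarith
      have e2 : c2 * x i * (m2 - tot b t) ≤ c2 * x i * (m2 - θ2) + c2 * ρ := by
        have k1 : c2 * x i * (m2 - tot b t) ≤ c2 * x i * (m2 - θ2 + ρ) :=
          mul_le_mul_of_nonneg_left (by linarith) (mul_pos hc2 (hx0 i)).le
        have k2 : x i * (c2 * ρ) ≤ 1 * (c2 * ρ) :=
          mul_le_mul_of_nonneg_right (hx1 i).le (by positivity)
        linarith
      have e3 := hη1 i
      have e4 := hη2 i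
      exact add_le_add (mul_le_mul_of_nonneg_right (by linarith) (hai i))
        (mul_le_mul_of_nonneg_right (by linarith) (hbi i))
    have hsum2 : ∑ i : Fin n, ((-η + c1 * ρ) * a i.succ t + (-η + c2 * ρ) * b i.succ t) =
        (-η + c1 * ρ) * (∑ i : Fin n, a i.succ t) + (-η + c2 * ρ) * ∑ i : Fin n, b i.succ t := by
      rw [Finset.sum_add_distrib, Finset.mul_sum, Finset.mul_sum]
    rw [hsum2] at hsum
    rw [hA, hB] at hsum ⊢
    set sa := ∑ i : Fin n, a i.succ t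
    set sb := ∑ i : Fin n, b i.succ t
    have k1 : -(c1 * θ1 * ((a 0 t - θ1) * (a 0 t + sa - θ1))) ≤ c1 * θ1 * (ρ * sa) := by
      have : -((a 0 t - θ1) * (a 0 t + sa - θ1)) ≤ ρ * sa := by
        have : (θ1 - a 0 t) * sa ≤ ρ * sa := mul_le_mul_of_nonneg_right (by linarith) hsa
        nlinarith [sq_nonneg (a 0 t - θ1)]
      have := mul_le_mul_of_nonneg_left this (by positivity : 0 ≤ c1 * θ1)
      linarith
    have k2 : -(c2 * θ2 * ((b 0 t - θ2) * (b 0 t + sb - θ2))) ≤ c2 * θ2 * (ρ * sb) := by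
      have : -((b 0 t - θ2) * (b 0 t + sb - θ2)) ≤ ρ * sb := by
        have : (θ2 - b 0 t) * sb ≤ ρ * sb := mul_le_mul_of_nonneg_right (by linarith) hsb
        nlinarith [sq_nonneg (b 0 t - θ2)]
      have := mul_le_mul_of_nonneg_left this (by positivity : 0 ≤ c2 * θ2)
      linarith
    have k3 : (ρ * (c1 * (1 + θ1)) - η) * sa ≤ 0 :=
      mul_nonpos_of_nonpos_of_nonneg (by linarith) hsa
    have k4 : (ρ * (c2 * (1 + θ2)) - η) * sb ≤ 0 :=
      mul_nonpos_of_nonpos_of_nonneg (by linarith) hsb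
    linarith
  have hanti : AntitoneOn L (Icc 0 τ) := by
    refine antitoneOn_of_deriv_nonpos (convex_Icc 0 τ) hLc ?_ ?_
    · rw [interior_Icc]
      exact fun t ht => (hLd t ht).differentiableAt.differentiableWithinAt
    · rw [interior_Icc]
      intro t ht
      rw [(hLd t ht).deriv]
      exact hL'le t ht
  have hLτ : L τ ≤ L 0 := hanti ⟨le_refl _, hτpos.le⟩ ⟨hτpos.le, le_refl _⟩ hτpos.le
  -- L 0 < l
  have hL0 : L 0 < l := by
    have h0I : (0 : ℝ) ∈ Icc 0 τ := ⟨le_refl _, hτpos.le⟩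
    have h1 : c1 * θ1 * ent θ1 (a 0 0) ≤ c1 * (2 * δ) := by
      have hu := hapos 0 h0I
      have e1 := ent_le p1 hu
      have e2 : (a 0 0 - θ1) ^ 2 / a 0 0 ≤ 2 * δ / θ1 := by
        rw [div_le_div_iff₀ hu p1]
        have e3 : (a 0 0 - θ1) ^ 2 ≤ δ ^ 2 := by
          rw [← sq_abs (a 0 0 - θ1)]
          exact pow_le_pow_left₀ (abs_nonneg _) i1.le 2
        have e4 : δ ^ 2 ≤ δ := by nlinarith
        have e5 : θ1 / 2 ≤ a 0 0 := by
          have := (abs_le.mp (hcl1 0 h0I)).1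
          linarith
        have e6 : (a 0 0 - θ1) ^ 2 * θ1 ≤ δ * θ1 :=
          mul_le_mul_of_nonneg_right (e3.trans e4) p1.le
        have e7 : δ * (θ1 / 2) ≤ δ * a 0 0 := mul_le_mul_of_nonneg_left e5 hδpos.le
        linarith
      have e3 : c1 * θ1 * ent θ1 (a 0 0) ≤ c1 * θ1 * (2 * δ / θ1) :=
        mul_le_mul_of_nonneg_left (e1.trans e2) (by positivity)
      have e4 : c1 * θ1 * (2 * δ / θ1) = c1 * (2 * δ) := by field_simp
      linarith
    have h2 : c2 * θ2 * ent θ2 (b 0 0) ≤ c2 * (2 * δ) := by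
      have hu := hbpos 0 h0I
      have e1 := ent_le p2 hu
      have e2 : (b 0 0 - θ2) ^ 2 / b 0 0 ≤ 2 * δ / θ2 := by
        rw [div_le_div_iff₀ hu p2]
        have e3 : (b 0 0 - θ2) ^ 2 ≤ δ ^ 2 := by
          rw [← sq_abs (b 0 0 - θ2)]
          exact pow_le_pow_left₀ (abs_nonneg _) i2.le 2
        have e4 : δ ^ 2 ≤ δ := by nlinarith
        have e5 : θ2 / 2 ≤ b 0 0 := by
          have := (abs_le.mp (hcl2 0 h0I)).1
          linarith
        have e6 : (b 0 0 - θ2) ^ 2 * θ2 ≤ δ * θ2 :=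
          mul_le_mul_of_nonneg_right (e3.trans e4) p2.le
        have e7 : δ * (θ2 / 2) ≤ δ * b 0 0 := mul_le_mul_of_nonneg_left e5 hδpos.le
        linarith
      have e3 : c2 * θ2 * ent θ2 (b 0 0) ≤ c2 * θ2 * (2 * δ / θ2) :=
        mul_le_mul_of_nonneg_left (e1.trans e2) (by positivity)
      have e4 : c2 * θ2 * (2 * δ / θ2) = c2 * (2 * δ) := by field_simp
      linarith
    have h3 : ∑ i : Fin n, (c1 * a i.succ 0 + c2 * x i * b i.succ 0) ≤
        n * ((c1 + c2) * δ) := by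
      have : ∑ i : Fin n, (c1 * a i.succ 0 + c2 * x i * b i.succ 0) ≤
          ∑ _i : Fin n, ((c1 + c2) * δ) := by
        refine Finset.sum_le_sum fun i _ => ?_
        have e1 : c1 * a i.succ 0 ≤ c1 * δ := mul_le_mul_of_nonneg_left (i3 i).le hc1.le
        have e2 : c2 * x i * b i.succ 0 ≤ c2 * 1 * δ :=
          mul_le_mul (mul_le_mul_of_nonneg_left (hx1 i).le hc2.le) (i4 i).le
            (hb 0 (le_refl _) _) (by positivity)
        linarith
      rw [Finset.sum_const, Finset.card_univ, Fintype.card_fin, nsmul_eq_mul] at this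
      exact this
    have h4 : L 0 ≤ δ * ((c1 + c2) * (n + 2)) := by
      simp only [hL]
      nlinarith
    have h5 : 0 < δ * (c1 + c2) := by positivity
    nlinarith
  -- l ≤ L τ
  have hsumnn : 0 ≤ ∑ i : Fin n, (c1 * a i.succ τ + c2 * x i * b i.succ τ) :=
    Finset.sum_nonneg fun i _ => add_nonneg (mul_nonneg hc1.le (ha τ hτpos.le _))
      (mul_nonneg (mul_pos hc2 (hx0 i)).le (hb τ hτpos.le _))
  have hτI : τ ∈ Icc 0 τ := ⟨hτpos.le, le_refl _⟩
  have n1 : 0 ≤ c1 * θ1 * ent θ1 (a 0 τ) :=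
    mul_nonneg (by positivity) (ent_nonneg p1 (hapos τ hτI))
  have n2 : 0 ≤ c2 * θ2 * ent θ2 (b 0 τ) :=
    mul_nonneg (by positivity) (ent_nonneg p2 (hbpos τ hτI))
  have hent : ∀ (θ u : ℝ), 0 < θ → 0 < u → |u - θ| ≤ ρ → ρ ≤ |u - θ| →
      ρ ^ 2 / (2 * (2 * θ + ρ)) ≤ ent θ u := by
    intro θ u hθ hu h1 h2
    refine le_trans ?_ (le_ent hθ hu)
    have h3 : (u - θ) ^ 2 = ρ ^ 2 := by
      rw [← sq_abs (u - θ), le_antisymm h1 h2]
    rw [h3]
    have h4 := (abs_le.mp h1).2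
    exact div_le_div_of_nonneg_left (by positivity) (by positivity) (by linarith)
  have hlτ : l ≤ L τ := by
    have hτS' := hτS
    rw [hS] at hτS'
    simp only [hL]
    rcases hτS' with (h1 | h1) | (h1 | h1)
    · have := mul_le_mul_of_nonneg_left (hent θ1 (a 0 τ) p1 (hapos τ hτI) hle1 h1.2)
        (by positivity : 0 ≤ c1 * θ1)
      linarith
    · have := mul_le_mul_of_nonneg_left (hent θ2 (b 0 τ) p2 (hbpos τ hτI) hle2 h1.2)
        (by positivity : 0 ≤ c2 * θ2)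
      linarith
    · rw [mem_iUnion] at h1
      obtain ⟨i, -, h1⟩ := h1
      have h2 : c1 * a i.succ τ + c2 * x i * b i.succ τ ≤
          ∑ i : Fin n, (c1 * a i.succ τ + c2 * x i * b i.succ τ) :=
        Finset.single_le_sum (f := fun i : Fin n => c1 * a i.succ τ + c2 * x i * b i.succ τ)
          (fun j _ => add_nonneg (mul_nonneg hc1.le (ha τ hτpos.le _))
            (mul_nonneg (mul_pos hc2 (hx0 j)).le (hb τ hτpos.le _))) (Finset.mem_univ i)
      have h3 : 0 ≤ c2 * x i * b i.succ τ :=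
        mul_nonneg (mul_pos hc2 (hx0 i)).le (hb τ hτpos.le _)
      have h4 : c1 * ρ ≤ c1 * a i.succ τ := mul_le_mul_of_nonneg_left h1 hc1.le
      linarith
    · rw [mem_iUnion] at h1
      obtain ⟨i, -, h1⟩ := h1
      have h2 : c1 * a i.succ τ + c2 * x i * b i.succ τ ≤
          ∑ i : Fin n, (c1 * a i.succ τ + c2 * x i * b i.succ τ) :=
        Finset.single_le_sum (f := fun i : Fin n => c1 * a i.succ τ + c2 * x i * b i.succ τ)
          (fun j _ => add_nonneg (mul_nonneg hc1.le (ha τ hτpos.le _))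
            (mul_nonneg (mul_pos hc2 (hx0 j)).le (hb τ hτpos.le _))) (Finset.mem_univ i)
      have h3 : 0 ≤ c1 * a i.succ τ := mul_nonneg hc1.le (ha τ hτpos.le _)
      have h4 : c2 * η * ρ ≤ c2 * x i * b i.succ τ :=
        mul_le_mul (mul_le_mul_of_nonneg_left (hη3 i) hc2.le) h1 hρpos.le
          (mul_pos hc2 (hx0 i)).le
      linarith
  linarith

/-- Monotonicity of `f e^{Kt}`. -/
theorem pos_aux {f g h : ℝ → ℝ} {p T K : ℝ} (hp : 0 < p)
    (hfc : ContinuousOn f (Icc 0 T))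
    (hf' : ∀ t ∈ Ioo 0 T, HasDerivAt f (p * (g t - f t) + f t * h t) t)
    (hf : ∀ t ∈ Icc 0 T, 0 ≤ f t) (hg : ∀ t ∈ Icc 0 T, 0 ≤ g t)
    (hK : ∀ t ∈ Icc 0 T, p - h t ≤ K) :
    MonotoneOn (fun t => f t * Real.exp (K * t)) (Icc 0 T) ∧
    ((∀ t ∈ Ioo 0 T, 0 < g t) → StrictMonoOn (fun t => f t * Real.exp (K * t)) (Icc 0 T)) := by
  have hexpc : Continuous fun t : ℝ => Real.exp (K * t) := by fun_prop
  have hcont : ContinuousOn (fun t => f t * Real.exp (K * t)) (Icc 0 T) :=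
    hfc.mul hexpc.continuousOn
  have hder : ∀ t ∈ Ioo 0 T, HasDerivAt (fun t => f t * Real.exp (K * t))
      ((p * g t + f t * (K - (p - h t))) * Real.exp (K * t)) t := by
    intro t ht
    have h1 : HasDerivAt (fun t : ℝ => Real.exp (K * t)) (Real.exp (K * t) * (K * 1)) t :=
      ((hasDerivAt_id t).const_mul K).exp
    refine ((hf' t ht).mul h1).congr_deriv ?_
    ring
  constructor
  · refine monotoneOn_of_deriv_nonneg (convex_Icc 0 T) hcont ?_ ?_
    · rw [interior_Icc]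
      exact fun t ht => (hder t ht).differentiableAt.differentiableWithinAt
    · rw [interior_Icc]
      intro t ht
      rw [(hder t ht).deriv]
      have htI : t ∈ Icc 0 T := ⟨ht.1.le, ht.2.le⟩
      have h1 := hf t htI
      have h2 := hg t htI
      have h3 : 0 ≤ K - (p - h t) := by linarith [hK t htI]
      positivity
  · intro hgpos
    refine strictMonoOn_of_deriv_pos (convex_Icc 0 T) hcont ?_
    rw [interior_Icc]
    intro t ht
    rw [(hder t ht).deriv]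
    have htI : t ∈ Icc 0 T := ⟨ht.1.le, ht.2.le⟩
    have h1 := hf t htI
    have h2 := hgpos t ht
    have h3 : 0 ≤ K - (p - h t) := by linarith [hK t htI]
    positivity

/-- Positivity: a nontrivial species is positive in both patches at positive times. -/
theorem positivity_pair {f g hf hg : ℝ → ℝ} {p q : ℝ} (hp : 0 < p) (hq : 0 < q)
    (hfc : ContinuousOn f (Ici 0)) (hgc : ContinuousOn g (Ici 0))
    (hhf : ContinuousOn hf (Ici 0)) (hhg : ContinuousOn hg (Ici 0))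
    (hf' : ∀ t > 0, HasDerivAt f (p * (g t - f t) + f t * hf t) t)
    (hg' : ∀ t > 0, HasDerivAt g (q * (f t - g t) + g t * hg t) t)
    (hf0 : ∀ t ≥ 0, 0 ≤ f t) (hg0 : ∀ t ≥ 0, 0 ≤ g t) (h0 : 0 < f 0) :
    ∀ t > 0, 0 < f t ∧ 0 < g t := by
  intro T hT
  have hsub : Icc 0 T ⊆ Ici (0 : ℝ) := fun t ht => ht.1
  obtain ⟨K₁, hK₁⟩ : ∃ K, ∀ t ∈ Icc 0 T, p - hf t ≤ K := by
    have : ContinuousOn (fun t => p - hf t) (Icc 0 T) :=
      continuousOn_const.sub (hhf.mono hsub)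
    obtain ⟨K, hK⟩ := isCompact_Icc.bddAbove_image this
    exact ⟨K, fun t ht => hK ⟨t, ht, rfl⟩⟩
  obtain ⟨K₂, hK₂⟩ : ∃ K, ∀ t ∈ Icc 0 T, q - hg t ≤ K := by
    have : ContinuousOn (fun t => q - hg t) (Icc 0 T) :=
      continuousOn_const.sub (hhg.mono hsub)
    obtain ⟨K, hK⟩ := isCompact_Icc.bddAbove_image this
    exact ⟨K, fun t ht => hK ⟨t, ht, rfl⟩⟩
  have h1 := (pos_aux hp (hfc.mono hsub) (fun t ht => hf' t ht.1) (fun t ht => hf0 t ht.1)
    (fun t ht => hg0 t ht.1) hK₁).1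
  have hfpos : ∀ t ∈ Icc 0 T, 0 < f t := by
    intro t ht
    have h2 := h1 ⟨le_refl _, hT.le⟩ ht ht.1
    simp only [mul_zero, Real.exp_zero, mul_one] at h2
    have h3 : 0 < f t * Real.exp (K₁ * t) := lt_of_lt_of_le h0 h2
    exact (mul_pos_iff_of_pos_right (Real.exp_pos _)).mp h3
  have h2 := (pos_aux hq (hgc.mono hsub) (fun t ht => hg' t ht.1) (fun t ht => hg0 t ht.1)
    (fun t ht => hf0 t ht.1) hK₂).2 (fun t ht => hfpos t ⟨ht.1.le, ht.2.le⟩)
  refine ⟨hfpos T ⟨hT.le, le_refl _⟩, ?_⟩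
  have h3 := h2 (show (0 : ℝ) ∈ Icc 0 T from ⟨le_refl _, hT.le⟩)
    (show T ∈ Icc 0 T from ⟨hT.le, le_refl _⟩) hT
  simp only [mul_zero, Real.exp_zero, mul_one] at h3
  have h4 : 0 < g T * Real.exp (K₂ * T) := lt_of_le_of_lt (hg0 0 (le_refl _)) h3
  exact (mul_pos_iff_of_pos_right (Real.exp_pos _)).mp h4

end Pool.Agent.Lib.MP_4fbe7c_an
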