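import Mathlib
import Pool.Agent.Lib.MP_4fbe7c_an.Stab

/-!
Invariance of the nonnegative cone for a linear cooperative pair.
-/

open Filter Topology Set

namespace Pool.Agent.Lib.MP_4fbe7c_an

/-- Barrier lemma on a compact interval. -/
theorem fenceOn {ι : Type*} [Finite ι] {g g' : ι → ℝ → ℝ} {K K' : ℝ → ℝ} {T : ℝ}
    (hgc : ∀ j, ContinuousOn (g j) (Icc 0 T)) (hKc : ContinuousOn K (Icc 0 T))
    (hd : ∀ t ∈ Ioc 0 T, ∀ j, HasDerivAt (g j) (g' j t) t)
    (hK : ∀ t ∈ Ioc 0 T, HasDerivAt K (K' t) t)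
    (h0 : ∀ j, g j 0 < K 0)
    (h : ∀ t ∈ Ioc 0 T, (∀ i, g i t ≤ K t) → ∀ j, g j t = K t → g' j t < K' t) :
    ∀ t ∈ Icc 0 T, ∀ j, g j t < K t := by
  by_contra hcon
  push Not at hcon
  obtain ⟨t₁, ht₁, j₁, hj₁⟩ := hcon
  set S : Set ℝ := ⋃ j, {t ∈ Icc 0 T | K t ≤ g j t} with hS
  have hSc : IsClosed S :=
    isClosed_iUnion_of_finite fun j => isClosed_Icc.isClosed_le hKc (hgc j)
  have hSne : S.Nonempty := ⟨t₁, by
    rw [hS, mem_iUnion]; exact ⟨j₁, ht₁, hj₁⟩⟩
  have hSb : BddBelow S := ⟨0, by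
    intro t ht
    rw [hS, mem_iUnion] at ht
    obtain ⟨j, ht, -⟩ := ht
    exact ht.1⟩
  set τ := sInf S with hτ
  have hτS : τ ∈ S := hSc.csInf_mem hSne hSb
  have hτS' := hτS
  rw [hS, mem_iUnion] at hτS'
  obtain ⟨j, hτI, hj⟩ := hτS'
  have hτI' : τ ∈ Icc 0 T := hτI
  have hτ0' : 0 < τ := by
    rcases eq_or_lt_of_le (show 0 ≤ τ from hτI'.1) with h1 | h1
    · have h2 := h0 j
      rw [h1] at h2
      exact absurd hj (not_le.mpr h2)
    · exact h1
  have hτIoc : τ ∈ Ioc 0 T := ⟨hτ0', hτI'.2⟩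
  have hbelow : ∀ t, 0 ≤ t → t < τ → ∀ i, g i t < K t := by
    intro t h1 h2 i
    by_contra h3
    push Not at h3
    have : t ∈ S := by rw [hS, mem_iUnion]; exact ⟨i, ⟨h1, h2.le.trans hτI'.2⟩, h3⟩
    exact absurd (csInf_le hSb this) (not_le.mpr h2)
  have hev : ∀ᶠ t in 𝓝[<] τ, 0 < t := by
    have : Ioo 0 τ ∈ 𝓝[<] τ := Ioo_mem_nhdsLT hτ0'
    filter_upwards [this] with t ht using ht.1
  have hle : ∀ i, g i τ ≤ K τ := by
    intro i
    have h1 : Tendsto (g i) (𝓝[<] τ) (𝓝 (g i τ)) :=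
      ((hd τ hτIoc i).continuousAt.tendsto).mono_left nhdsWithin_le_nhds
    have h2 : Tendsto K (𝓝[<] τ) (𝓝 (K τ)) :=
      ((hK τ hτIoc).continuousAt.tendsto).mono_left nhdsWithin_le_nhds
    refine le_of_tendsto_of_tendsto h1 h2 ?_
    filter_upwards [hev, self_mem_nhdsWithin] with t ht ht' using (hbelow t ht.le ht' i).le
  have heq : g j τ = K τ := le_antisymm (hle j) hj
  have hlt := h τ hτIoc hle j heq
  have hder : HasDerivAt (fun t => g j t - K t) (g' j τ - K' τ) τ :=
    (hd τ hτIoc j).sub (hK τ hτIoc)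
  have hslope := (hasDerivAt_iff_tendsto_slope.mp hder)
  have hneg : ∀ᶠ t in 𝓝[≠] τ, slope (fun t => g j t - K t) τ t < 0 :=
    hslope.eventually (gt_mem_nhds (by linarith : g' j τ - K' τ < 0))
  have hneg' : ∀ᶠ t in 𝓝[<] τ, slope (fun t => g j t - K t) τ t < 0 :=
    hneg.filter_mono (nhdsWithin_mono _ fun t (ht : t < τ) => ht.ne)
  obtain ⟨t, ⟨ht1, ht2⟩, ht3⟩ := ((hneg'.and hev).and self_mem_nhdsWithin).exists
  have ht3' : t < τ := ht3
  rw [slope_def_field] at ht1
  have h5 := hbelow t ht2.le ht3' j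
  have h6 : (g j t - K t - (g j τ - K τ)) / (t - τ) > 0 := by
    apply div_pos_of_neg_of_neg
    · rw [heq]; linarith
    · linarith
  linarith

/-- Nonnegative initial data give nonnegative solutions of a linear cooperative pair. -/
theorem nonneg_pair {f g hf hg : ℝ → ℝ} {p q : ℝ} (hp : 0 < p) (hq : 0 < q)
    (hfc : ContinuousOn f (Ici 0)) (hgc : ContinuousOn g (Ici 0))
    (hhf : ContinuousOn hf (Ici 0)) (hhg : ContinuousOn hg (Ici 0))
    (hf' : ∀ t > 0, HasDerivAt f (p * (g t - f t) + f t * hf t) t)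
    (hg' : ∀ t > 0, HasDerivAt g (q * (f t - g t) + g t * hg t) t)
    (hf0 : 0 ≤ f 0) (hg0 : 0 ≤ g 0) :
    ∀ t ≥ 0, 0 ≤ f t ∧ 0 ≤ g t := by
  intro T hT
  have hsub : Icc 0 T ⊆ Ici (0 : ℝ) := fun t ht => ht.1
  obtain ⟨K₁, hK₁⟩ : ∃ K, ∀ t ∈ Icc 0 T, hf t ≤ K := by
    obtain ⟨K, hK⟩ := isCompact_Icc.bddAbove_image (hhf.mono hsub)
    exact ⟨K, fun t ht => hK ⟨t, ht, rfl⟩⟩
  obtain ⟨K₂, hK₂⟩ : ∃ K, ∀ t ∈ Icc 0 T, hg t ≤ K := by
    obtain ⟨K, hK⟩ := isCompact_Icc.bddAbove_image (hhg.mono hsub)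
    exact ⟨K, fun t ht => hK ⟨t, ht, rfl⟩⟩
  set K : ℝ := max K₁ K₂ + 1 with hKdef
  have hKf : ∀ t ∈ Icc 0 T, hf t < K := fun t ht => by
    have := hK₁ t ht
    have := le_max_left K₁ K₂
    linarith
  have hKg : ∀ t ∈ Icc 0 T, hg t < K := fun t ht => by
    have := hK₂ t ht
    have := le_max_right K₁ K₂
    linarith
  have key : ∀ ε > 0, ∀ t ∈ Icc 0 T, ∀ j : Bool,
      (fun j t => (match j with | true => -f t | false => -g t) : Bool → ℝ → ℝ) j t <
        ε * Real.exp (K * t) := by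
    intro ε hε
    refine fenceOn (K' := fun t => ε * (Real.exp (K * t) * (K * 1)))
      (g' := fun j t => match j with
        | true => -(p * (g t - f t) + f t * hf t)
        | false => -(q * (f t - g t) + g t * hg t)) ?_ ?_ ?_ ?_ ?_ ?_
    · intro j
      cases j
      · exact (hgc.mono hsub).neg
      · exact (hfc.mono hsub).neg
    · exact (by fun_prop : Continuous fun t : ℝ => ε * Real.exp (K * t)).continuousOn
    · intro t ht j
      cases j
      · exact (hg' t ht.1).neg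
      · exact (hf' t ht.1).neg
    · intro t ht
      exact (((hasDerivAt_id t).const_mul K).exp).const_mul ε
    · intro j
      cases j
      · change -g 0 < ε * Real.exp (K * 0)
        rw [mul_zero, Real.exp_zero, mul_one]
        linarith
      · change -f 0 < ε * Real.exp (K * 0)
        rw [mul_zero, Real.exp_zero, mul_one]
        linarith
    · intro t ht hall j hj
      have hE : 0 < ε * Real.exp (K * t) := by positivity
      have h1 : -g t ≤ ε * Real.exp (K * t) := hall false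
      have h2 : -f t ≤ ε * Real.exp (K * t) := hall true
      have htI : t ∈ Icc 0 T := ⟨ht.1.le, ht.2⟩
      set X := ε * Real.exp (K * t) with hX
      have e0 : ε * (Real.exp (K * t) * (K * 1)) = K * X := by rw [hX]; ring
      cases j
      · have h3 : -g t = X := hj
        change -(q * (f t - g t) + g t * hg t) < ε * (Real.exp (K * t) * (K * 1))
        rw [e0]
        have h4 : q * ((-f t) - X) ≤ 0 :=
          mul_nonpos_of_nonneg_of_nonpos hq.le (by linarith)
        have h5 : X * hg t < X * K := mul_lt_mul_of_pos_left (hKg t htI) hE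
        have h6 : g t = -X := by linarith
        rw [h6]
        linarith
      · have h3 : -f t = X := hj
        change -(p * (g t - f t) + f t * hf t) < ε * (Real.exp (K * t) * (K * 1))
        rw [e0]
        have h4 : p * ((-g t) - X) ≤ 0 :=
          mul_nonpos_of_nonneg_of_nonpos hp.le (by linarith)
        have h5 : X * hf t < X * K := mul_lt_mul_of_pos_left (hKf t htI) hE
        have h6 : f t = -X := by linarith
        rw [h6]
        linarith
  have hTI : T ∈ Icc 0 T := ⟨hT, le_refl _⟩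
  constructor
  · by_contra hcon
    push Not at hcon
    have h1 : -f T < -f T / Real.exp (K * T) * Real.exp (K * T) :=
      key (-f T / Real.exp (K * T)) (div_pos (by linarith) (Real.exp_pos _)) T hTI true
    rw [div_mul_cancel₀ _ (Real.exp_pos _).ne'] at h1
    linarith
  · by_contra hcon
    push Not at hcon
    have h1 : -g T < -g T / Real.exp (K * T) * Real.exp (K * T) :=
      key (-g T / Real.exp (K * T)) (div_pos (by linarith) (Real.exp_pos _)) T hTI false
    rw [div_mul_cancel₀ _ (Real.exp_pos _).ne'] at h1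
    linarith

/-- Zero initial data give the zero solution of a linear cooperative pair. -/
theorem zero_pair {f g hf hg : ℝ → ℝ} {p q : ℝ} (hp : 0 < p) (hq : 0 < q)
    (hfc : ContinuousOn f (Ici 0)) (hgc : ContinuousOn g (Ici 0))
    (hhf : ContinuousOn hf (Ici 0)) (hhg : ContinuousOn hg (Ici 0))
    (hf' : ∀ t > 0, HasDerivAt f (p * (g t - f t) + f t * hf t) t)
    (hg' : ∀ t > 0, HasDerivAt g (q * (f t - g t) + g t * hg t) t)
    (hf0 : f 0 = 0) (hg0 : g 0 = 0) :
    ∀ t ≥ 0, f t = 0 ∧ g t = 0 := by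
  intro T hT
  have h1 := nonneg_pair hp hq hfc hgc hhf hhg hf' hg' hf0.ge hg0.ge T hT
  have h2 := nonneg_pair (f := fun t => -f t) (g := fun t => -g t) hp hq hfc.neg hgc.neg hhf hhg
    (fun t ht => (hf' t ht).neg.congr_deriv (by ring))
    (fun t ht => (hg' t ht).neg.congr_deriv (by ring))
    (by simp [hf0]) (by simp [hg0]) T hT
  exact ⟨le_antisymm (by linarith [h2.1]) h1.1, le_antisymm (by linarith [h2.2]) h1.2⟩

end Pool.Agent.Lib.MP_4fbe7c_an
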